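import Mathlib

/-!
# A commutative ring with square zero variables in characteristic two

`Om F k = F[ε₁, …, ε_k, u₁, …, u_k] / (ε_i², u_i²)`, its involution exchanging `ε_i` and `u_i`, and
the linear functional `top` reading the coefficient of `∏ ε_i u_i`.
-/

set_option autoImplicit false
set_option linter.unusedSectionVars false

namespace Pool.Agent.W430.Sp

open MvPolynomial

variable (F : Type) [Field F] (k : ℕ)

/-- The ideal generated by the squares of the variables. -/
noncomputable def sqIdeal : Ideal (MvPolynomial (Fin k ⊕ Fin k) F) :=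
  Ideal.span (Set.range fun i => (X i : MvPolynomial (Fin k ⊕ Fin k) F) ^ 2)

/-- The ring with square zero variables. -/
abbrev Om : Type := MvPolynomial (Fin k ⊕ Fin k) F ⧸ sqIdeal F k

/-- The exponent with all entries one. -/
noncomputable def ones : (Fin k ⊕ Fin k) →₀ ℕ := Finsupp.equivFunOnFinite.symm fun _ => 1

lemma coeff_mem {f : MvPolynomial (Fin k ⊕ Fin k) F} (hf : f ∈ sqIdeal F k) :
    ∀ d : (Fin k ⊕ Fin k) →₀ ℕ, (∀ i, d i ≤ 1) → coeff d f = 0 := by
  induction hf using Submodule.span_induction with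
  | mem x hx =>
    obtain ⟨i, rfl⟩ := hx
    intro d hd
    show coeff d (X i ^ 2) = 0
    rw [X_pow_eq_monomial, coeff_monomial, if_neg]
    intro h
    have h1 := DFunLike.congr_fun h i
    have h2 := hd i
    simp at h1
    omega
  | zero => intro d _; simp
  | add x y _ _ hx hy => intro d hd; rw [coeff_add, hx d hd, hy d hd, add_zero]
  | smul a x hx ih =>
    intro d hd
    rw [smul_eq_mul, coeff_mul]
    apply Finset.sum_eq_zero
    intro p hp
    rw [ih p.2, mul_zero]
    intro i
    have h1 := Finset.HasAntidiagonal.mem_antidiagonal.1 hp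
    have h2 := DFunLike.congr_fun h1 i
    have h3 := hd i
    simp only [Finsupp.coe_add, Pi.add_apply] at h2
    omega

/-- The functional reading the coefficient of the product of all the variables. -/
noncomputable def top : Om F k →ₗ[F] F :=
  (Submodule.liftQ ((sqIdeal F k).restrictScalars F) (lcoeff F (ones k)) (by
    intro f hf
    exact coeff_mem F k hf _ (fun i => by simp [ones]))) ∘ₗ
  (Submodule.Quotient.restrictScalarsEquiv F (sqIdeal F k)).symm.toLinearMap

lemma top_mk (f : MvPolynomial (Fin k ⊕ Fin k) F) :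
    top F k (Ideal.Quotient.mk (sqIdeal F k) f) = coeff (ones k) f := rfl

/-- `ε_i` -/
noncomputable def ep (i : Fin k) : Om F k := Ideal.Quotient.mk (sqIdeal F k) (X (Sum.inl i))
/-- `u_i` -/
noncomputable def uu (i : Fin k) : Om F k := Ideal.Quotient.mk (sqIdeal F k) (X (Sum.inr i))

lemma X_sq_mem (i : Fin k ⊕ Fin k) : (X i : MvPolynomial (Fin k ⊕ Fin k) F) ^ 2 ∈ sqIdeal F k :=
  Ideal.subset_span ⟨i, rfl⟩

lemma ep_sq (i : Fin k) : ep F k i * ep F k i = 0 := by
  rw [ep, ← map_mul, ← pow_two]
  exact Ideal.Quotient.eq_zero_iff_mem.2 (X_sq_mem F k _)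

lemma uu_sq (i : Fin k) : uu F k i * uu F k i = 0 := by
  rw [uu, ← map_mul, ← pow_two]
  exact Ideal.Quotient.eq_zero_iff_mem.2 (X_sq_mem F k _)

/-- The involution exchanging `ε_i` and `u_i`. -/
noncomputable def inv : Om F k →ₐ[F] Om F k :=
  Ideal.Quotient.liftₐ (sqIdeal F k)
    ((Ideal.Quotient.mkₐ F (sqIdeal F k)).comp (rename (Sum.swap : Fin k ⊕ Fin k → Fin k ⊕ Fin k)))
    (by
      intro f hf
      induction hf using Submodule.span_induction with
      | mem x hx =>
        obtain ⟨i, rfl⟩ := hx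
        simp only [map_pow, AlgHom.comp_apply, rename_X]
        rw [← map_pow]
        exact Ideal.Quotient.eq_zero_iff_mem.2 (X_sq_mem F k _)
      | zero => simp
      | add x y _ _ hx hy => rw [map_add, hx, hy, add_zero]
      | smul a x hx ih => rw [smul_eq_mul, map_mul, ih, mul_zero])

lemma inv_mk (f : MvPolynomial (Fin k ⊕ Fin k) F) :
    inv F k (Ideal.Quotient.mk (sqIdeal F k) f)
      = Ideal.Quotient.mk (sqIdeal F k) (rename Sum.swap f) := rfl

lemma inv_ep (i : Fin k) : inv F k (ep F k i) = uu F k i := by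
  rw [ep, inv_mk, rename_X]; rfl

lemma inv_uu (i : Fin k) : inv F k (uu F k i) = ep F k i := by
  rw [uu, inv_mk, rename_X]; rfl

lemma top_inv (x : Om F k) : top F k (inv F k x) = top F k x := by
  obtain ⟨f, rfl⟩ := Ideal.Quotient.mk_surjective x
  rw [inv_mk, top_mk, top_mk]
  have h : ones k = Finsupp.mapDomain Sum.swap (ones k) := by
    ext i
    have hinj : Function.Injective (Sum.swap : Fin k ⊕ Fin k → Fin k ⊕ Fin k) :=
      Sum.swap_leftInverse.injective
    obtain ⟨j, rfl⟩ : ∃ j, Sum.swap j = i := ⟨Sum.swap i, Sum.swap_swap i⟩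
    rw [Finsupp.mapDomain_apply hinj]
    simp [ones]
  conv_lhs => rw [h]
  exact coeff_rename_mapDomain _ Sum.swap_leftInverse.injective _ _

lemma inv_inv (x : Om F k) : inv F k (inv F k x) = x := by
  obtain ⟨f, rfl⟩ := Ideal.Quotient.mk_surjective x
  rw [inv_mk, inv_mk, rename_rename]
  congr 1
  have : (Sum.swap ∘ Sum.swap : Fin k ⊕ Fin k → Fin k ⊕ Fin k) = id := by
    ext i; simp
  rw [this, rename_id_apply]

lemma two_zero [CharP F 2] : (2 : Om F k) = 0 := by
  have h : (2 : F) = 0 := CharTwo.two_eq_zero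
  have h2 := congrArg (algebraMap F (Om F k)) h
  rwa [map_ofNat, map_zero] at h2

/-- A product of factors of degree at most two, fewer than `k` of them, has no top coefficient. -/
lemma top_eq_zero_of_degree (f : MvPolynomial (Fin k ⊕ Fin k) F) (hf : f.totalDegree < 2 * k) :
    top F k (Ideal.Quotient.mk (sqIdeal F k) f) = 0 := by
  rw [top_mk]
  apply coeff_eq_zero_of_totalDegree_lt
  refine lt_of_lt_of_le hf ?_
  have h : ∑ i ∈ (ones k).support, (ones k) i = ∑ i, (ones k) i :=
    Finset.sum_subset (Finset.subset_univ _) (fun i _ hi => Finsupp.notMem_support_iff.1 hi)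
  rw [h]
  simp [ones, two_mul]

end Pool.Agent.W430.Sp
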