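import Mathlib
import Pool.Agent.W430.Sp.Ring

/-!
# The cocycle of words
-/

set_option autoImplicit false
set_option linter.unusedSectionVars false

namespace Pool.Agent.W430.Sp

variable (F : Type) [Field F] [CharP F 2] (k : ℕ)

/-- `E_w = ∑ ε_{w_p}` -/
noncomputable def EE (w : List (Fin k)) : Om F k := (w.map (ep F k)).sum
/-- `U_w = ∑ u_{w_p}` -/
noncomputable def UU (w : List (Fin k)) : Om F k := (w.map (uu F k)).sum

/-- `c(w) = ∏_{p < p'} (1 + u_{w_p} ε_{w_{p'}})` -/
noncomputable def cc : List (Fin k) → Om F k
  | [] => 1
  | i :: w => cc w * (1 + uu F k i * EE F k w)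

@[simp] lemma EE_nil : EE F k [] = 0 := rfl
@[simp] lemma UU_nil : UU F k [] = 0 := rfl
@[simp] lemma cc_nil : cc F k [] = 1 := rfl
@[simp] lemma EE_cons (i : Fin k) (w : List (Fin k)) :
    EE F k (i :: w) = ep F k i + EE F k w := by simp [EE]
@[simp] lemma UU_cons (i : Fin k) (w : List (Fin k)) :
    UU F k (i :: w) = uu F k i + UU F k w := by simp [UU]
lemma cc_cons (i : Fin k) (w : List (Fin k)) :
    cc F k (i :: w) = cc F k w * (1 + uu F k i * EE F k w) := rfl
@[simp] lemma EE_append (v w : List (Fin k)) : EE F k (v ++ w) = EE F k v + EE F k w := by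
  simp [EE]
@[simp] lemma UU_append (v w : List (Fin k)) : UU F k (v ++ w) = UU F k v + UU F k w := by
  simp [UU]

lemma EE_sq (w : List (Fin k)) : EE F k w * EE F k w = 0 := by
  induction w with
  | nil => simp
  | cons i w ih =>
    rw [EE_cons]
    linear_combination ih + ep_sq F k i + ep F k i * EE F k w * two_zero F k

lemma UU_sq (w : List (Fin k)) : UU F k w * UU F k w = 0 := by
  induction w with
  | nil => simp
  | cons i w ih =>
    rw [UU_cons]
    linear_combination ih + uu_sq F k i + uu F k i * UU F k w * two_zero F k

lemma cc_append (v w : List (Fin k)) :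
    cc F k (v ++ w) = cc F k v * cc F k w * (1 + UU F k v * EE F k w) := by
  induction v with
  | nil => simp
  | cons i v ih =>
    rw [List.cons_append, cc_cons, ih, cc_cons, EE_append, UU_cons]
    have h1 := EE_sq F k w
    have h2 := uu_sq F k i
    linear_combination cc F k v * cc F k w * (UU F k v * uu F k i * h1
      - h2 * EE F k v * EE F k w)

lemma cc_sq (w : List (Fin k)) : cc F k w * cc F k w = 1 := by
  induction w with
  | nil => simp
  | cons i w ih =>
    rw [cc_cons]
    have h1 := uu_sq F k i
    linear_combination (1 + uu F k i * EE F k w) * (1 + uu F k i * EE F k w) * ih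
      + uu F k i * EE F k w * two_zero F k + EE F k w * EE F k w * h1

lemma inv_EE (w : List (Fin k)) : inv F k (EE F k w) = UU F k w := by
  induction w with
  | nil => simp
  | cons i w ih => rw [EE_cons, map_add, ih, inv_ep, UU_cons]

lemma inv_UU (w : List (Fin k)) : inv F k (UU F k w) = EE F k w := by
  induction w with
  | nil => simp
  | cons i w ih => rw [UU_cons, map_add, ih, inv_uu, EE_cons]

/-- `π(w) = ∏_p (1 + ε_{w_p} u_{w_p})` -/
noncomputable def pp (w : List (Fin k)) : Om F k :=
  (w.map fun i => 1 + ep F k i * uu F k i).prod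

lemma cc_inv (w : List (Fin k)) :
    cc F k w * inv F k (cc F k w) = (1 + UU F k w * EE F k w) * pp F k w := by
  induction w with
  | nil => simp [pp]
  | cons i w ih =>
    have h1 := uu_sq F k i
    have h2 := ep_sq F k i
    have h3 := EE_sq F k w
    have h4 := UU_sq F k w
    have h5 := two_zero F k
    have e1 : pp F k (i :: w) = (1 + ep F k i * uu F k i) * pp F k w := by simp [pp]
    rw [cc_cons, map_mul, map_add, map_one, map_mul, inv_uu, inv_EE, e1, EE_cons, UU_cons]
    generalize pp F k w = P at *
    generalize cc F k w = c at *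
    generalize inv F k c = d at *
    generalize EE F k w = E at *
    generalize UU F k w = U at *
    generalize ep F k i = e at *
    generalize uu F k i = u at *
    have key : (1 + U * E) * ((1 + u * E) * (1 + e * U)) =
        (1 + (u + U) * (e + E)) * (1 + e * u) := by
      linear_combination (U * u + U * U * e * u) * h3 + (E * e) * h4 
        - (e * e + e * E) * h1 - (U * u) * h2 - (e * u) * h5
    linear_combination (1 + u * E) * (1 + e * U) * ih + P * key

end Pool.Agent.W430.Sp
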