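import Mathlib
import Pool.Agent.W430.Sp.Word

/-!
# The representation by matrices of order two and the functional `Psi`
-/

set_option autoImplicit false
set_option linter.unusedSectionVars false

namespace Pool.Agent.W430.Sp

open MvPolynomial

variable (F : Type) [Field F] [CharP F 2] (k : ℕ)

/-- Polynomials over `Om`. -/
abbrev RR : Type := MvPolynomial (Fin k) (Om F k)

/-- The free unital algebra of rank `k`. -/
abbrev PP : Type := MonoidAlgebra F (FreeMonoid (Fin k))

/-- The matrix `(1 + e q) (1 + v p)`. -/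
noncomputable def NN (e v : Om F k) : Matrix (Fin 2) (Fin 2) (RR F k) :=
  !![1, C v; C e, 1 + C (e * v)]

lemma NN_mul (e v e' v' : Om F k) (h1 : e * e = 0) (h2 : v * v = 0) (h1' : e' * e' = 0)
    (h2' : v' * v' = 0) :
    NN F k e v * NN F k e' v' = (C (1 + v * e') : RR F k) • NN F k (e + e') (v + v') := by
  have h0 := two_zero F k
  ext1 i j
  fin_cases i <;> fin_cases j
  · simp [NN, Matrix.mul_apply, Fin.sum_univ_two]
  · simp only [NN, Matrix.mul_apply, Fin.sum_univ_two, Matrix.smul_apply, smul_eq_mul,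
      Fin.zero_eta, Fin.mk_one, Matrix.of_apply, Matrix.cons_val', Matrix.cons_val_zero,
      Matrix.cons_val_one, Matrix.cons_val_fin_one, ← map_one (C : Om F k →+* RR F k), ← map_mul,
      ← map_add]
    refine congrArg (⇑(C : Om F k →+* RR F k)) ?_
    linear_combination (-e') * h2
  · simp only [NN, Matrix.mul_apply, Fin.sum_univ_two, Matrix.smul_apply, smul_eq_mul,
      Fin.zero_eta, Fin.mk_one, Matrix.of_apply, Matrix.cons_val', Matrix.cons_val_zero,
      Matrix.cons_val_one, Matrix.cons_val_fin_one, ← map_one (C : Om F k →+* RR F k), ← map_mul,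
      ← map_add]
    refine congrArg (⇑(C : Om F k →+* RR F k)) ?_
    linear_combination (-v) * h1'
  · simp only [NN, Matrix.mul_apply, Fin.sum_univ_two, Matrix.smul_apply, smul_eq_mul,
      Fin.mk_one, Matrix.of_apply, Matrix.cons_val', Matrix.cons_val_zero,
      Matrix.cons_val_one, Matrix.cons_val_fin_one, ← map_one (C : Om F k →+* RR F k), ← map_mul,
      ← map_add]
    refine congrArg (⇑(C : Om F k →+* RR F k)) ?_
    linear_combination (-e * e' - e' * e') * h2 - (v * v') * h1' - e' * v * h0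

/-- The homogeneous elements. -/
noncomputable def HH (d : Fin k →₀ ℕ) (r e v : Om F k) : Matrix (Fin 2) (Fin 2) (RR F k) :=
  (monomial d r : RR F k) • NN F k e v

lemma HH_mul (d d' : Fin k →₀ ℕ) (r r' e v e' v' : Om F k) (h1 : e * e = 0) (h2 : v * v = 0)
    (h1' : e' * e' = 0) (h2' : v' * v' = 0) :
    HH F k d r e v * HH F k d' r' e' v'
      = HH F k (d + d') (r * r' * (1 + v * e')) (e + e') (v + v') := by
  rw [HH, HH, HH, Matrix.smul_mul, Matrix.mul_smul, NN_mul F k e v e' v' h1 h2 h1' h2', smul_smul,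
    smul_smul]
  congr 1
  rw [monomial_mul, mul_comm _ (C _), C_mul_monomial, mul_comm (1 + v * e')]

/-- The content of a word. -/
noncomputable def cont (w : List (Fin k)) : Fin k →₀ ℕ :=
  (w.map (fun i => Finsupp.single i 1)).sum

@[simp] lemma cont_nil : cont k [] = 0 := rfl
@[simp] lemma cont_cons (i : Fin k) (w : List (Fin k)) :
    cont k (i :: w) = Finsupp.single i 1 + cont k w := by simp [cont]
@[simp] lemma cont_append (v w : List (Fin k)) : cont k (v ++ w) = cont k v + cont k w := by
  simp [cont]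

/-- The word as an element of the free algebra. -/
noncomputable def wd (w : List (Fin k)) : PP F k := MonoidAlgebra.single (FreeMonoid.ofList w) 1

lemma wd_append (v w : List (Fin k)) : wd F k (v ++ w) = wd F k v * wd F k w := by
  rw [wd, wd, wd, MonoidAlgebra.single_mul_single, mul_one, FreeMonoid.ofList_append]

lemma wd_nil : wd F k [] = 1 := rfl

/-- The representation. -/
noncomputable def rho : PP F k →ₐ[F] Matrix (Fin 2) (Fin 2) (RR F k) :=
  MonoidAlgebra.lift F _ _ (FreeMonoid.lift fun i =>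
    HH F k (Finsupp.single i 1) 1 (ep F k i) (uu F k i))

lemma rho_wd_single (i : Fin k) :
    rho F k (wd F k [i]) = HH F k (Finsupp.single i 1) 1 (ep F k i) (uu F k i) := by
  rw [rho, wd, MonoidAlgebra.lift_single, one_smul]
  exact FreeMonoid.lift_eval_of _ _

lemma rho_wd (w : List (Fin k)) :
    rho F k (wd F k w) = HH F k (cont k w) (cc F k w) (EE F k w) (UU F k w) := by
  induction w with
  | nil =>
    rw [wd_nil, map_one]
    ext i j
    fin_cases i <;> fin_cases j <;> simp [HH, NN]
  | cons i w ih =>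
    have : i :: w = [i] ++ w := rfl
    rw [this, wd_append, map_mul, ih, rho_wd_single,
      HH_mul _ _ _ _ _ _ _ _ _ _ (ep_sq F k i) (uu_sq F k i) (EE_sq F k w) (UU_sq F k w),
      ← this, cont_cons, cc_cons, EE_cons, UU_cons]
    congr 1
    ring

/-- The exponent `(2, …, 2)`. -/
noncomputable def twos : Fin k →₀ ℕ := Finsupp.equivFunOnFinite.symm fun _ => 2

/-- The functional `L`. -/
noncomputable def LL : RR F k →ₗ[F] F :=
  (top F k) ∘ₗ ((lcoeff (Om F k) (twos k)).restrictScalars F)

lemma LL_monomial (d : Fin k →₀ ℕ) (r : Om F k) :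
    LL F k (monomial d r) = if d = twos k then top F k r else 0 := by
  simp only [LL, LinearMap.comp_apply, LinearMap.restrictScalars_apply, lcoeff_apply,
    coeff_monomial]
  split_ifs <;> simp

/-- The functional `Ψ`. -/
noncomputable def Psi : PP F k →ₗ[F] F :=
  LL F k ∘ₗ (Matrix.entryLinearMap F (RR F k) 0 0) ∘ₗ (rho F k).toLinearMap

lemma Psi_apply (f : PP F k) : Psi F k f = LL F k (rho F k f 0 0) := rfl

lemma Psi_of_HH {f : PP F k} {d : Fin k →₀ ℕ} {r e v : Om F k} (h : rho F k f = HH F k d r e v) :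
    Psi F k f = if d = twos k then top F k r else 0 := by
  rw [Psi_apply, h, ← LL_monomial]
  simp [HH, NN]

lemma Psi_wd (w : List (Fin k)) :
    Psi F k (wd F k w) = if cont k w = twos k then top F k (cc F k w) else 0 :=
  Psi_of_HH F k (rho_wd F k w)

/-! ## Generic matrices -/

/-- The generic version of the representation. -/
noncomputable def rhoGen :
    PP F k →ₐ[F] Matrix (Fin 2) (Fin 2) (MvPolynomial (Fin k ⊕ (Fin k ⊕ Fin k)) F) :=
  MonoidAlgebra.lift F _ _ (FreeMonoid.lift fun i =>
    (X (Sum.inl i) : MvPolynomial (Fin k ⊕ (Fin k ⊕ Fin k)) F) •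
      !![1, X (Sum.inr (Sum.inr i)); X (Sum.inr (Sum.inl i)),
        1 + X (Sum.inr (Sum.inl i)) * X (Sum.inr (Sum.inr i))])

/-- The specialisation. -/
noncomputable def theta : MvPolynomial (Fin k ⊕ (Fin k ⊕ Fin k)) F →ₐ[F] RR F k :=
  aeval (Sum.elim (fun i => X i) (Sum.elim (fun i => C (ep F k i)) (fun i => C (uu F k i))))

lemma rho_eq : rho F k = ((theta F k).mapMatrix).comp (rhoGen F k) := by
  refine MonoidAlgebra.algHom_ext' (FreeMonoid.hom_eq fun i => ?_) (Subsingleton.elim _ _)
  have e1 : (rho F k) (MonoidAlgebra.of F (FreeMonoid (Fin k)) (FreeMonoid.of i)) =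
      HH F k (Finsupp.single i 1) 1 (ep F k i) (uu F k i) := rho_wd_single F k i
  have e2 : (rhoGen F k) (MonoidAlgebra.of F (FreeMonoid (Fin k)) (FreeMonoid.of i)) =
    (X (Sum.inl i) : MvPolynomial (Fin k ⊕ (Fin k ⊕ Fin k)) F) •
      !![1, X (Sum.inr (Sum.inr i)); X (Sum.inr (Sum.inl i)),
        1 + X (Sum.inr (Sum.inl i)) * X (Sum.inr (Sum.inr i))] := by
    rw [rhoGen, MonoidAlgebra.lift_of]
    exact FreeMonoid.lift_eval_of _ _
  simp only [MonoidHom.comp_apply, MonoidHom.coe_coe, AlgHom.comp_apply, e1, e2]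
  have e3 : (monomial (Finsupp.single i 1) 1 : RR F k) = X i := rfl
  ext1 a b
  fin_cases a <;> fin_cases b <;>
    simp [HH, NN, theta, AlgHom.mapMatrix_apply, Matrix.map_apply, e3]

lemma rho_eq_zero [Infinite F] (f : PP F k)
    (h : ∀ σ : PP F k →ₐ[F] Matrix (Fin 2) (Fin 2) F, σ f = 0) : rho F k f = 0 := by
  have h1 : rhoGen F k f = 0 := by
    ext1 i j
    apply MvPolynomial.funext
    intro v
    have h2 := h (((aeval v : MvPolynomial (Fin k ⊕ (Fin k ⊕ Fin k)) F →ₐ[F] F).mapMatrix).comp
      (rhoGen F k))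
    have h3 := congrFun (congrFun h2 i) j
    simpa using h3
  rw [rho_eq, AlgHom.comp_apply, h1, map_zero]

lemma Psi_eq_zero [Infinite F] (f : PP F k)
    (h : ∀ σ : PP F k →ₐ[F] Matrix (Fin 2) (Fin 2) F, σ f = 0) : Psi F k f = 0 := by
  rw [Psi_apply, rho_eq_zero F k f h]
  simp

end Pool.Agent.W430.Sp
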