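import Mathlib
import Pool.Agent.W430.Sp.Rep

/-!
# Commutators are central modulo the functional
-/

set_option autoImplicit false
set_option linter.unusedSectionVars false

namespace Pool.Agent.W430.Sp

variable (F : Type) [Field F] [CharP F 2] (k : ℕ)

lemma EE_eq (w : List (Fin k)) : EE F k w = ∑ i, (cont k w i) • ep F k i := by
  induction w with
  | nil => simp
  | cons i w ih =>
    rw [EE_cons, ih, cont_cons]
    simp [Finsupp.single_apply, add_smul, Finset.sum_add_distrib]

lemma UU_eq (w : List (Fin k)) : UU F k w = ∑ i, (cont k w i) • uu F k i := by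
  induction w with
  | nil => simp
  | cons i w ih =>
    rw [UU_cons, ih, cont_cons]
    simp [Finsupp.single_apply, add_smul, Finset.sum_add_distrib]

lemma pp_eq (w : List (Fin k)) : pp F k w = ∏ i, (1 + ep F k i * uu F k i) ^ (cont k w i) := by
  induction w with
  | nil => simp [pp]
  | cons i w ih =>
    have e1 : pp F k (i :: w) = (1 + ep F k i * uu F k i) * pp F k w := by simp [pp]
    rw [e1, ih, cont_cons]
    simp only [Finsupp.coe_add, Pi.add_apply, pow_add, Finset.prod_mul_distrib,
      Finsupp.single_apply]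
    congr 1
    simp [Finset.prod_ite_eq]

lemma twos_apply (i : Fin k) : twos k i = 2 := rfl

lemma EE_bal {w : List (Fin k)} (h : cont k w = twos k) : EE F k w = 0 := by
  rw [EE_eq, h]
  apply Finset.sum_eq_zero
  intro i _
  rw [twos_apply, nsmul_eq_mul, Nat.cast_ofNat, two_zero, zero_mul]

lemma UU_bal {w : List (Fin k)} (h : cont k w = twos k) : UU F k w = 0 := by
  rw [UU_eq, h]
  apply Finset.sum_eq_zero
  intro i _
  rw [twos_apply, nsmul_eq_mul, Nat.cast_ofNat, two_zero, zero_mul]

lemma pp_bal {w : List (Fin k)} (h : cont k w = twos k) : pp F k w = 1 := by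
  rw [pp_eq, h]
  apply Finset.prod_eq_one
  intro i _
  rw [twos_apply]
  linear_combination (ep F k i * uu F k i) * two_zero F k + (uu F k i * uu F k i) * ep_sq F k i

lemma cc_inv_bal {w : List (Fin k)} (h : cont k w = twos k) :
    inv F k (cc F k w) = cc F k w := by
  have h1 := cc_inv F k w
  rw [EE_bal F k h, pp_bal F k h, mul_zero, add_zero, one_mul] at h1
  have h2 := cc_sq F k w
  linear_combination (cc F k w) * h1 - inv F k (cc F k w) * h2

/-- The elements `y + inv y`. -/
def IsTr (x : Om F k) : Prop := ∃ y, x = y + inv F k y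

lemma IsTr.top {x : Om F k} (h : IsTr F k x) : Sp.top F k x = 0 := by
  obtain ⟨y, rfl⟩ := h
  rw [map_add, top_inv]
  exact CharTwo.add_self_eq_zero _

lemma IsTr.mul {x g : Om F k} (h : IsTr F k x) (hg : inv F k g = g) : IsTr F k (g * x) := by
  obtain ⟨y, rfl⟩ := h
  exact ⟨g * y, by rw [map_mul, hg, mul_add]⟩

lemma IsTr.add {x y : Om F k} (h : IsTr F k x) (h' : IsTr F k y) : IsTr F k (x + y) := by
  obtain ⟨a, rfl⟩ := h
  obtain ⟨b, rfl⟩ := h'
  exact ⟨a + b, by rw [map_add]; ring⟩

lemma IsTr.zero : IsTr F k 0 := ⟨0, by simp⟩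

/-- The commutation factor. -/
noncomputable def ka (a b : List (Fin k)) : Om F k :=
  (1 + UU F k a * EE F k b) * (1 + UU F k b * EE F k a)

lemma cc_sandwich (x v y : List (Fin k)) :
    cc F k (x ++ (v ++ y)) = cc F k x * (cc F k v * cc F k y * (1 + UU F k v * EE F k y)) *
      (1 + UU F k x * (EE F k v + EE F k y)) := by
  rw [cc_append, cc_append, EE_append]

lemma one_add_sq (a b : List (Fin k)) :
    (1 + UU F k a * EE F k b) * (1 + UU F k a * EE F k b) = 1 := by
  linear_combination UU F k a * EE F k b * two_zero F k + EE F k b * EE F k b * UU_sq F k a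

lemma cc_swap (x a b y : List (Fin k)) :
    cc F k (x ++ ((b ++ a) ++ y)) = cc F k (x ++ ((a ++ b) ++ y)) * ka F k a b := by
  rw [cc_sandwich, cc_sandwich F k x (a ++ b), cc_append, cc_append F k a b, ka]
  simp only [UU_append, EE_append]
  have h := one_add_sq F k a b
  linear_combination (-(cc F k x * (cc F k a * cc F k b * cc F k y *
    (1 + (UU F k a + UU F k b) * EE F k y)) *
      (1 + UU F k x * (EE F k a + EE F k b + EE F k y)) * (1 + UU F k b * EE F k a))) * h

lemma inv_ka (a b : List (Fin k)) : inv F k (ka F k a b) = ka F k a b := by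
  rw [ka]
  simp only [map_mul, map_add, map_one, inv_UU, inv_EE]
  ring

/-- `Ψ(x [[a, b], c] y) = 0` for words. -/
lemma Psi_comm_words (x a b c y : List (Fin k)) :
    Psi F k (wd F k x * (((wd F k a * wd F k b + wd F k b * wd F k a) * wd F k c
      + wd F k c * (wd F k a * wd F k b + wd F k b * wd F k a))) * wd F k y) = 0 := by
  have e : wd F k x * (((wd F k a * wd F k b + wd F k b * wd F k a) * wd F k c
      + wd F k c * (wd F k a * wd F k b + wd F k b * wd F k a))) * wd F k y
      = wd F k (x ++ ((a ++ b) ++ (c ++ y))) + wd F k (x ++ ((b ++ a) ++ (c ++ y)))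
        + wd F k (x ++ ((c ++ (a ++ b)) ++ y)) + wd F k (x ++ ((c ++ (b ++ a)) ++ y)) := by
    simp only [wd_append]
    noncomm_ring
  rw [e, map_add, map_add, map_add, Psi_wd, Psi_wd, Psi_wd, Psi_wd]
  have hc2 : cont k (x ++ ((b ++ a) ++ (c ++ y))) = cont k (x ++ ((a ++ b) ++ (c ++ y))) := by
    simp only [cont_append]; abel
  have hc3 : cont k (x ++ ((c ++ (a ++ b)) ++ y)) = cont k (x ++ ((a ++ b) ++ (c ++ y))) := by
    simp only [cont_append]; abel
  have hc4 : cont k (x ++ ((c ++ (b ++ a)) ++ y)) = cont k (x ++ ((a ++ b) ++ (c ++ y))) := by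
    simp only [cont_append]; abel
  rw [hc2, hc3, hc4]
  by_cases h : cont k (x ++ ((a ++ b) ++ (c ++ y))) = twos k
  swap
  · rw [if_neg h, if_neg h, if_neg h, if_neg h]
    simp
  simp only [h, if_true]
  rw [← map_add, ← map_add, ← map_add]
  apply IsTr.top
  set C := cc F k (x ++ ((a ++ b) ++ (c ++ y))) with hC
  have hCi : inv F k C = C := cc_inv_bal F k h
  have e2 : cc F k (x ++ ((b ++ a) ++ (c ++ y))) = C * ka F k a b := cc_swap F k x a b (c ++ y)
  have e3 : cc F k (x ++ ((c ++ (a ++ b)) ++ y)) = C * ka F k (a ++ b) c := by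
    rw [cc_swap F k x (a ++ b) c y, hC]
    simp only [List.append_assoc]
  have e4 : cc F k (x ++ ((c ++ (b ++ a)) ++ y)) = C * ka F k a b * ka F k (a ++ b) c := by
    rw [cc_swap F k x (b ++ a) c y]
    have : x ++ (b ++ a ++ c ++ y) = x ++ ((b ++ a) ++ (c ++ y)) := by simp only [List.append_assoc]
    rw [this, e2]
    congr 1
    simp only [ka, UU_append, EE_append]
    ring
  rw [e2, e3, e4]
  have e5 : C + C * ka F k a b + C * ka F k (a ++ b) c + C * ka F k a b * ka F k (a ++ b) c
      = C * ((1 + ka F k a b) * (1 + ka F k (a ++ b) c)) := by ring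
  rw [e5]
  refine IsTr.mul F k ?_ hCi
  refine ⟨UU F k a * EE F k b * (1 + ka F k (a ++ b) c), ?_⟩
  rw [map_mul, map_mul, inv_UU, inv_EE, map_add, map_one, inv_ka]
  simp only [ka, UU_append, EE_append]
  have h0 := two_zero F k
  have ha := UU_sq F k a
  have hb := UU_sq F k b
  have ha' := EE_sq F k a
  have hb' := EE_sq F k b
  generalize UU F k a = A at *
  generalize UU F k b = B at *
  generalize UU F k c = D at *
  generalize EE F k a = A' at *
  generalize EE F k b = B' at *
  generalize EE F k c = D' at *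
  have key : A * B * A' * B' * (1 + (1 + (A + B) * D') * (1 + D * (A' + B'))) = 0 := by
    have : A * B * A' * B' * (1 + (1 + (A + B) * D') * (1 + D * (A' + B')))
        = A * B * A' * B' * 2 + (A * A) * (B * A' * B' * D') * (1 + D * (A' + B'))
          + (B * B) * (A * A' * B' * D') * (1 + D * (A' + B'))
          + (A' * A') * (A * B * B' * D) + (B' * B') * (A * B * A' * D) := by ring
    rw [this, h0, ha, hb, ha', hb']
    ring
  linear_combination key + (1 + (1 + (A + B) * D') * (1 + D * (A' + B'))) * h0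

end Pool.Agent.W430.Sp
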