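import Mathlib
import Pool.Agent.W430.Sp.Comm

/-!
# Products of fewer than `k` squares are killed by the functional
-/

set_option autoImplicit false
set_option linter.unusedSectionVars false

namespace Pool.Agent.W430.Sp

variable (F : Type) [Field F] [CharP F 2] (k : ℕ)

/-- A block is either a square of a word or a commutator of two words. -/
inductive Blk (k : ℕ)
  | sq : List (Fin k) → Blk k
  | cm : List (Fin k) → List (Fin k) → Blk k

variable {k} in
/-- The leading word of a block. -/
def Blk.word : Blk k → List (Fin k)
  | Blk.sq m => m ++ m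
  | Blk.cm m m' => m ++ m'

variable {k} in
/-- The block as an element of the free algebra. -/
noncomputable def Blk.el : Blk k → PP F k
  | Blk.sq m => wd F k m * wd F k m
  | Blk.cm m m' => wd F k m * wd F k m' + wd F k m' * wd F k m

variable {k} in
/-- The factor of a block. -/
noncomputable def Blk.fac : Blk k → Om F k
  | Blk.sq _ => 1
  | Blk.cm m m' => 1 + ka F k m m'

lemma rho_blk (b : Blk k) :
    rho F k (b.el F) = HH F k (cont k b.word) (cc F k b.word * b.fac F)
      (EE F k b.word) (UU F k b.word) := by
  cases b with
  | sq m =>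
    rw [Blk.el, ← wd_append, rho_wd, Blk.fac, mul_one]
    rfl
  | cm m m' =>
    rw [Blk.el, ← wd_append, ← wd_append, map_add, rho_wd, rho_wd, Blk.fac, Blk.word]
    have h1 : cont k (m' ++ m) = cont k (m ++ m') := by simp only [cont_append]; abel
    have h2 : EE F k (m' ++ m) = EE F k (m ++ m') := by simp only [EE_append]; ring
    have h3 : UU F k (m' ++ m) = UU F k (m ++ m') := by simp only [UU_append]; ring
    have h4 : cc F k (m' ++ m) = cc F k (m ++ m') * ka F k m m' := by
      have := cc_swap F k [] m m' []
      simpa using this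
    rw [h1, h2, h3, h4, HH, HH, HH, ← add_smul, ← map_add, mul_add, mul_one]

/-- The total word of a list of blocks. -/
def tw (l : List (Blk k)) : List (Fin k) := (l.map Blk.word).flatten

/-- The product of the factors. -/
noncomputable def tf (l : List (Blk k)) : Om F k := (l.map (Blk.fac F)).prod

/-- The product of the blocks. -/
noncomputable def te (l : List (Blk k)) : PP F k := (l.map (Blk.el F)).prod

lemma rho_te (l : List (Blk k)) :
    rho F k (te F k l) = HH F k (cont k (tw k l)) (cc F k (tw k l) * tf F k l)
      (EE F k (tw k l)) (UU F k (tw k l)) := by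
  induction l with
  | nil =>
    have := rho_wd F k []
    simpa [te, tw, tf, wd_nil] using this
  | cons b l ih =>
    have e1 : te F k (b :: l) = b.el F * te F k l := by simp [te]
    have e2 : tw k (b :: l) = b.word ++ tw k l := by simp [tw]
    have e3 : tf F k (b :: l) = b.fac F * tf F k l := by simp [tf]
    rw [e1, map_mul, ih, rho_blk, HH_mul _ _ _ _ _ _ _ _ _ _ (EE_sq F k _) (UU_sq F k _)
      (EE_sq F k _) (UU_sq F k _), e2, e3, cont_append, cc_append, EE_append, UU_append]
    congr 1
    ring

lemma inv_tf (l : List (Blk k)) : inv F k (tf F k l) = tf F k l := by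
  induction l with
  | nil => simp [tf]
  | cons b l ih =>
    have e3 : tf F k (b :: l) = b.fac F * tf F k l := by simp [tf]
    rw [e3, map_mul, ih]
    congr 1
    cases b with
    | sq m => simp [Blk.fac]
    | cm m m' => rw [Blk.fac, map_add, map_one, inv_ka]

/-- `∏ E_m U_m E_{m'} U_{m'}` over the commutator blocks. -/
noncomputable def tq : List (Blk k) → Om F k
  | [] => 1
  | Blk.sq _ :: l => tq l
  | Blk.cm m m' :: l => (UU F k m * EE F k m * (UU F k m' * EE F k m')) * tq l

lemma inv_tq (l : List (Blk k)) : inv F k (tq F k l) = tq F k l := by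
  induction l with
  | nil => simp [tq]
  | cons b l ih =>
    cases b with
    | sq m => rw [tq, ih]
    | cm m m' =>
      rw [tq]
      simp only [map_mul, inv_UU, inv_EE, ih]
      ring

lemma tf_tr (l : List (Blk k)) : IsTr F k (tf F k l + tq F k l) := by
  induction l with
  | nil =>
    refine ⟨0, ?_⟩
    simp only [tf, tq, List.map_nil, List.prod_nil, map_zero, add_zero]
    linear_combination two_zero F k
  | cons b l ih =>
    have e3 : tf F k (b :: l) = b.fac F * tf F k l := by simp [tf]
    cases b with
    | sq m => rw [e3, Blk.fac, one_mul, tq]; exact ih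
    | cm m m' =>
      rw [e3, Blk.fac, tq]
      have h1 : (1 + ka F k m m') * tf F k l + UU F k m * EE F k m * (UU F k m' * EE F k m') *
          tq F k l = tf F k l * (UU F k m * EE F k m' + UU F k m' * EE F k m)
          + (UU F k m * EE F k m * (UU F k m' * EE F k m')) * (tf F k l + tq F k l) := by
        rw [ka]
        linear_combination tf F k l * two_zero F k
      rw [h1]
      refine IsTr.add F k (IsTr.mul F k ?_ (inv_tf F k l)) (IsTr.mul F k ih ?_)
      · refine ⟨UU F k m * EE F k m', ?_⟩
        rw [map_mul, inv_UU, inv_EE]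
        ring
      · simp only [map_mul, inv_UU, inv_EE]
        ring

/-- The list of the `E`'s of the commutator blocks. -/
noncomputable def te' : List (Blk k) → List (Om F k)
  | [] => []
  | Blk.sq _ :: l => te' l
  | Blk.cm m m' :: l => EE F k m :: EE F k m' :: te' l

lemma te'_sq (l : List (Blk k)) : ∀ x ∈ te' F k l, x * x = 0 := by
  induction l with
  | nil => simp [te']
  | cons b l ih =>
    cases b with
    | sq m => rw [te']; exact ih
    | cm m m' =>
      rw [te']
      intro x hx
      rcases List.mem_cons.1 hx with rfl | hx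
      · exact EE_sq F k m
      · rcases List.mem_cons.1 hx with rfl | hx
        · exact EE_sq F k m'
        · exact ih x hx

lemma te'_sum (l : List (Blk k)) : (te' F k l).sum = EE F k (tw k l) := by
  induction l with
  | nil => simp [te', tw]
  | cons b l ih =>
    have e2 : tw k (b :: l) = b.word ++ tw k l := by simp [tw]
    cases b with
    | sq m =>
      rw [te', ih, e2, EE_append, Blk.word, EE_append]
      linear_combination -(EE F k m) * two_zero F k
    | cm m m' =>
      rw [te', e2, EE_append, Blk.word, EE_append, List.sum_cons, List.sum_cons, ih, add_assoc]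

lemma tq_eq (l : List (Blk k)) : ∃ r, tq F k l = r * (te' F k l).prod := by
  induction l with
  | nil => exact ⟨1, by simp [tq, te']⟩
  | cons b l ih =>
    obtain ⟨r, hr⟩ := ih
    cases b with
    | sq m => exact ⟨r, by rw [tq, te', hr]⟩
    | cm m m' =>
      refine ⟨UU F k m * UU F k m' * r, ?_⟩
      rw [tq, te', hr, List.prod_cons, List.prod_cons]
      ring

/-- A product of square zero elements, the sum of which is zero, is zero. -/
lemma prod_eq_zero_of_sum {R : Type} [CommRing R] (x : R) (l : List R)
    (hl : ∀ y ∈ l, y * y = 0) (hs : x + l.sum = 0) : (x :: l).prod = 0 := by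
  have h1 : ∀ y ∈ l, y * l.prod = 0 := by
    intro y hy
    obtain ⟨s, t, rfl⟩ := List.append_of_mem hy
    rw [List.prod_append, List.prod_cons]
    linear_combination (s.prod * t.prod) * hl y hy
  have h2 : l.sum * l.prod = 0 := by
    have h3 : l.sum * l.prod = (l.map (fun y => y * l.prod)).sum := by
      rw [List.sum_map_mul_right]; simp
    rw [h3]
    apply List.sum_eq_zero
    intro z hz
    obtain ⟨y, hy, rfl⟩ := List.mem_map.1 hz
    exact h1 y hy
  rw [List.prod_cons]
  linear_combination l.prod * hs - h2

lemma te'_nil_or (l : List (Blk k)) :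
    (∀ b ∈ l, ∃ m, b = Blk.sq m) ∨ ∃ x t, te' F k l = x :: t := by
  induction l with
  | nil => left; simp
  | cons b l ih =>
    cases b with
    | sq m =>
      rcases ih with h | ⟨x, t, h⟩
      · left
        intro b hb
        rcases List.mem_cons.1 hb with rfl | hb
        · exact ⟨m, rfl⟩
        · exact h b hb
      · right
        exact ⟨x, t, by rw [te', h]⟩
    | cm m m' => right; exact ⟨_, _, rfl⟩

/-- The polynomial representing `E_m`. -/
noncomputable def EEp (w : List (Fin k)) : MvPolynomial (Fin k ⊕ Fin k) F :=
  (w.map fun i => MvPolynomial.X (Sum.inl i)).sum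
/-- The polynomial representing `U_m`. -/
noncomputable def UUp (w : List (Fin k)) : MvPolynomial (Fin k ⊕ Fin k) F :=
  (w.map fun i => MvPolynomial.X (Sum.inr i)).sum

lemma mk_EEp (w : List (Fin k)) : Ideal.Quotient.mk (sqIdeal F k) (EEp F k w) = EE F k w := by
  rw [EEp, map_list_sum, List.map_map]; rfl
lemma mk_UUp (w : List (Fin k)) : Ideal.Quotient.mk (sqIdeal F k) (UUp F k w) = UU F k w := by
  rw [UUp, map_list_sum, List.map_map]; rfl

lemma deg_EEp (w : List (Fin k)) : (EEp F k w).totalDegree ≤ 1 := by
  induction w with
  | nil => simp [EEp]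
  | cons i w ih =>
    have : EEp F k (i :: w) = MvPolynomial.X (Sum.inl i) + EEp F k w := by simp [EEp]
    rw [this]
    refine (MvPolynomial.totalDegree_add _ _).trans (max_le ?_ ih)
    exact (MvPolynomial.totalDegree_X _).le
lemma deg_UUp (w : List (Fin k)) : (UUp F k w).totalDegree ≤ 1 := by
  induction w with
  | nil => simp [UUp]
  | cons i w ih =>
    have : UUp F k (i :: w) = MvPolynomial.X (Sum.inr i) + UUp F k w := by simp [UUp]
    rw [this]
    refine (MvPolynomial.totalDegree_add _ _).trans (max_le ?_ ih)
    exact (MvPolynomial.totalDegree_X _).le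

/-- For lists of squares the cocycle is `∏ (1 + E_m U_m)`. -/
lemma cc_tw_sq (l : List (Blk k)) (h : ∀ b ∈ l, ∃ m, b = Blk.sq m) :
    UU F k (tw k l) = 0 ∧ ∃ f : MvPolynomial (Fin k ⊕ Fin k) F,
      Ideal.Quotient.mk (sqIdeal F k) f = cc F k (tw k l) ∧ f.totalDegree ≤ 2 * l.length := by
  induction l with
  | nil => exact ⟨by simp [tw], 1, by simp [tw], by simp⟩
  | cons b l ih =>
    obtain ⟨m, rfl⟩ := h b (by simp)
    obtain ⟨hu, f, hf, hd⟩ := ih (fun b hb => h b (by simp [hb]))
    have e2 : tw k (Blk.sq m :: l) = (m ++ m) ++ tw k l := by simp [tw, Blk.word]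
    refine ⟨?_, (1 + EEp F k m * UUp F k m) * f, ?_, ?_⟩
    · rw [e2, UU_append, UU_append, hu]
      linear_combination (UU F k m) * two_zero F k
    · rw [map_mul, map_add, map_one, map_mul, mk_EEp, mk_UUp, hf, e2, cc_append, UU_append,
        cc_append]
      have h1 := cc_sq F k m
      have h0 := two_zero F k
      linear_combination (-(cc F k (tw k l)) * (1 + UU F k m * EE F k m)
        * (1 + (UU F k m + UU F k m) * EE F k (tw k l))) * h1
        - (1 + UU F k m * EE F k m) * cc F k (tw k l) * UU F k m * EE F k (tw k l) * h0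
    · refine (MvPolynomial.totalDegree_mul _ _).trans ?_
      have h1 : (1 + EEp F k m * UUp F k m).totalDegree ≤ 2 := by
        refine (MvPolynomial.totalDegree_add _ _).trans (max_le (by simp) ?_)
        refine (MvPolynomial.totalDegree_mul _ _).trans ?_
        have := deg_EEp F k m
        have := deg_UUp F k m
        omega
      simp only [List.length_cons]
      omega

/-- Products of fewer than `k` blocks are killed. -/
lemma Psi_te (l : List (Blk k)) (hl : l.length < k) : Psi F k (te F k l) = 0 := by
  rw [Psi_of_HH F k (rho_te F k l)]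
  split_ifs with h
  swap
  · rfl
  rcases te'_nil_or F k l with hs | ⟨x, t, hx⟩
  · obtain ⟨-, f, hf, hd⟩ := cc_tw_sq F k l hs
    have h1 : tf F k l = 1 := by
      rw [tf]
      apply List.prod_eq_one
      intro z hz
      obtain ⟨b, hb, rfl⟩ := List.mem_map.1 hz
      obtain ⟨m, rfl⟩ := hs b hb
      rfl
    rw [h1, mul_one, ← hf]
    exact top_eq_zero_of_degree F k f (by omega)
  · have h1 : tq F k l = 0 := by
      obtain ⟨r, hr⟩ := tq_eq F k l
      have hsum := te'_sum F k l
      rw [EE_bal F k h, hx, List.sum_cons] at hsum
      have hsq := te'_sq F k l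
      rw [hx] at hsq
      rw [hr, hx, prod_eq_zero_of_sum x t (fun y hy => hsq y (by simp [hy])) hsum, mul_zero]
    have h2 := tf_tr F k l
    rw [h1, add_zero] at h2
    exact (h2.mul F k (cc_inv_bal F k h)).top

end Pool.Agent.W430.Sp
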