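import Mathlib
import Pool.Agent.W430.Sp.Squares

/-!
# The quotient algebra
-/

set_option autoImplicit false
set_option linter.unusedSectionVars false

namespace Pool.Agent.W430.Sp

variable (F : Type) [Field F] [CharP F 2] (k : ℕ)

/-- An induction principle: a linear property of elements of the free algebra holds if it holds for
words. -/
lemma ind_words {p : PP F k → Prop} (h0 : p 0) (hadd : ∀ f g, p f → p g → p (f + g))
    (hw : ∀ (w : List (Fin k)) (c : F), p (c • wd F k w)) (f : PP F k) : p f := by
  induction f using MonoidAlgebra.induction_linear with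
  | zero => exact h0
  | add f g hf hg => exact hadd f g hf hg
  | single m c =>
    have := hw (FreeMonoid.toList m) c
    rw [wd, MonoidAlgebra.smul_single, smul_eq_mul, mul_one] at this
    exact this

/-- The span of the blocks. -/
noncomputable def Sq : Submodule F (PP F k) := Submodule.span F (Set.range (Blk.el F))

lemma comm_mem_Sq (f g : PP F k) : f * g + g * f ∈ Sq F k := by
  induction f using ind_words F k with
  | h0 => simp
  | hadd f₁ f₂ h₁ h₂ =>
    have : (f₁ + f₂) * g + g * (f₁ + f₂) = (f₁ * g + g * f₁) + (f₂ * g + g * f₂) := by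
      noncomm_ring
    rw [this]
    exact Submodule.add_mem _ h₁ h₂
  | hw v c =>
    induction g using ind_words F k with
    | h0 => simp
    | hadd f₁ f₂ h₁ h₂ =>
      have : (c • wd F k v) * (f₁ + f₂) + (f₁ + f₂) * (c • wd F k v)
        = ((c • wd F k v) * f₁ + f₁ * (c • wd F k v))
          + ((c • wd F k v) * f₂ + f₂ * (c • wd F k v)) := by
        rw [mul_add, add_mul]; abel
      rw [this]
      exact Submodule.add_mem _ h₁ h₂
    | hw w d =>
      have : (c • wd F k v) * (d • wd F k w) + (d • wd F k w) * (c • wd F k v)
          = (c * d) • (Blk.cm v w : Blk k).el F := by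
        rw [Blk.el, smul_mul_smul_comm, smul_mul_smul_comm, smul_add, mul_comm d c]
      rw [this]
      exact Submodule.smul_mem _ _ (Submodule.subset_span ⟨_, rfl⟩)

lemma sq_mem_Sq (f : PP F k) : f * f ∈ Sq F k := by
  induction f using ind_words F k with
  | h0 => simp
  | hadd f g hf hg =>
    have : (f + g) * (f + g) = (f * f + g * g) + (f * g + g * f) := by noncomm_ring
    rw [this]
    exact Submodule.add_mem _ (Submodule.add_mem _ hf hg) (comm_mem_Sq F k f g)
  | hw w c =>
    have : (c • wd F k w) * (c • wd F k w) = (c * c) • (Blk.sq w : Blk k).el F := by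
      rw [Blk.el, smul_mul_smul_comm]
    rw [this]
    exact Submodule.smul_mem _ _ (Submodule.subset_span ⟨_, rfl⟩)

lemma prod_mem (p : List (PP F k)) (hp : ∀ a ∈ p, a ∈ Sq F k) :
    p.prod ∈ Submodule.span F {x | ∃ l : List (Blk k), l.length = p.length ∧ te F k l = x} := by
  induction p with
  | nil => exact Submodule.subset_span ⟨[], rfl, rfl⟩
  | cons a p ih =>
    have h1 := hp a (by simp)
    have h2 := ih (fun b hb => hp b (by simp [hb]))
    rw [List.prod_cons]
    have h3 := Submodule.mul_mem_mul h1 h2
    rw [Sq, Submodule.span_mul_span] at h3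
    refine Submodule.span_mono ?_ h3
    rintro _ ⟨_, ⟨b, rfl⟩, _, ⟨l, hl, rfl⟩, rfl⟩
    exact ⟨b :: l, by simp [hl], by simp [te]⟩

/-- Products of fewer than `k` squares are killed. -/
lemma Psi_prod (p : List (PP F k)) (hp : ∀ a ∈ p, a ∈ Sq F k) (hl : p.length < k) :
    Psi F k p.prod = 0 := by
  have h := prod_mem F k p hp
  generalize p.prod = q at h
  induction h using Submodule.span_induction with
  | mem x hx =>
    obtain ⟨l, hl', rfl⟩ := hx
    exact Psi_te F k l (by omega)
  | zero => simp
  | add x y _ _ hx hy => rw [map_add, hx, hy, add_zero]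
  | smul c x _ hx => rw [map_smul, hx, smul_zero]

lemma Psi_comm (x a b c y : PP F k) :
    Psi F k (x * (((a * b + b * a) * c + c * (a * b + b * a))) * y) = 0 := by
  induction x using ind_words F k with
  | h0 => simp
  | hadd f g hf hg => simp only [add_mul, map_add] at hf hg ⊢; rw [hf, hg, add_zero]
  | hw x cx =>
  rw [smul_mul_assoc, smul_mul_assoc, map_smul]
  suffices h : Psi F k (wd F k x * (((a * b + b * a) * c + c * (a * b + b * a))) * y) = 0 by
    rw [h, smul_zero]
  induction y using ind_words F k with
  | h0 => simp
  | hadd f g hf hg => rw [mul_add, map_add, hf, hg, add_zero]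
  | hw y cy =>
  rw [mul_smul_comm, map_smul]
  suffices h : Psi F k (wd F k x * (((a * b + b * a) * c + c * (a * b + b * a))) * wd F k y) = 0 by
    rw [h, smul_zero]
  induction c using ind_words F k with
  | h0 => simp
  | hadd f g hf hg =>
    have : wd F k x * ((a * b + b * a) * (f + g) + (f + g) * (a * b + b * a)) * wd F k y
      = wd F k x * ((a * b + b * a) * f + f * (a * b + b * a)) * wd F k y
        + wd F k x * ((a * b + b * a) * g + g * (a * b + b * a)) * wd F k y := by noncomm_ring
    rw [this, map_add, hf, hg, add_zero]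
  | hw c cx' =>
  have : wd F k x * ((a * b + b * a) * (cx' • wd F k c) + (cx' • wd F k c) * (a * b + b * a))
      * wd F k y = cx' • (wd F k x * ((a * b + b * a) * wd F k c + wd F k c * (a * b + b * a))
        * wd F k y) := by
    rw [mul_smul_comm, smul_mul_assoc, ← smul_add, mul_smul_comm, smul_mul_assoc]
  rw [this, map_smul]
  clear this
  suffices h : Psi F k (wd F k x * ((a * b + b * a) * wd F k c + wd F k c * (a * b + b * a))
      * wd F k y) = 0 by
    rw [h, smul_zero]
  induction a using ind_words F k with
  | h0 => simp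
  | hadd f g hf hg =>
    have : wd F k x * (((f + g) * b + b * (f + g)) * wd F k c + wd F k c * ((f + g) * b +
        b * (f + g))) * wd F k y
      = wd F k x * ((f * b + b * f) * wd F k c + wd F k c * (f * b + b * f)) * wd F k y
        + wd F k x * ((g * b + b * g) * wd F k c + wd F k c * (g * b + b * g)) * wd F k y := by
      noncomm_ring
    rw [this, map_add, hf, hg, add_zero]
  | hw a ca =>
  have : wd F k x * (((ca • wd F k a) * b + b * (ca • wd F k a)) * wd F k c + wd F k c *
      ((ca • wd F k a) * b + b * (ca • wd F k a))) * wd F k y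
      = ca • (wd F k x * ((wd F k a * b + b * wd F k a) * wd F k c + wd F k c *
      (wd F k a * b + b * wd F k a)) * wd F k y) := by
    simp only [mul_smul_comm, smul_mul_assoc, ← smul_add]
  rw [this, map_smul]
  clear this
  suffices h : Psi F k (wd F k x * ((wd F k a * b + b * wd F k a) * wd F k c + wd F k c *
      (wd F k a * b + b * wd F k a)) * wd F k y) = 0 by
    rw [h, smul_zero]
  induction b using ind_words F k with
  | h0 => simp
  | hadd f g hf hg =>
    have : wd F k x * ((wd F k a * (f + g) + (f + g) * wd F k a) * wd F k c + wd F k c *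
        (wd F k a * (f + g) + (f + g) * wd F k a)) * wd F k y
      = wd F k x * ((wd F k a * f + f * wd F k a) * wd F k c + wd F k c *
          (wd F k a * f + f * wd F k a)) * wd F k y
        + wd F k x * ((wd F k a * g + g * wd F k a) * wd F k c + wd F k c *
          (wd F k a * g + g * wd F k a)) * wd F k y := by
      noncomm_ring
    rw [this, map_add, hf, hg, add_zero]
  | hw b cb =>
  have : wd F k x * ((wd F k a * (cb • wd F k b) + (cb • wd F k b) * wd F k a) * wd F k c +
      wd F k c * (wd F k a * (cb • wd F k b) + (cb • wd F k b) * wd F k a)) * wd F k y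
      = cb • (wd F k x * ((wd F k a * wd F k b + wd F k b * wd F k a) * wd F k c + wd F k c *
      (wd F k a * wd F k b + wd F k b * wd F k a)) * wd F k y) := by
    simp only [mul_smul_comm, smul_mul_assoc, ← smul_add]
  rw [this, map_smul, Psi_comm_words, smul_zero]

/-- The congruence. -/
noncomputable def con : RingCon (PP F k) where
  r f g := ∀ x y, Psi F k (x * f * y) = Psi F k (x * g * y)
  iseqv := ⟨fun _ _ _ => rfl, fun h x y => (h x y).symm, fun h h' x y => (h x y).trans (h' x y)⟩
  mul' := by
    intro a b c d h h' x y
    have h1 := h x (c * y)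
    have h2 := h' (x * b) y
    calc Psi F k (x * (a * c) * y) = Psi F k (x * a * (c * y)) := by simp only [mul_assoc]
      _ = Psi F k (x * b * (c * y)) := h1
      _ = Psi F k (x * b * c * y) := by simp only [mul_assoc]
      _ = Psi F k (x * b * d * y) := h2
      _ = _ := by simp only [mul_assoc]
  add' := by
    intro a b c d h h' x y
    simp only [mul_add, add_mul, map_add, h x y, h' x y]

/-- The quotient algebra. -/
abbrev WW : Type := (con F k).Quotient

/-- The projection. -/
noncomputable def pr : PP F k →ₐ[F] WW F k where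
  toRingHom := (con F k).mk'
  commutes' := fun _ => rfl

lemma pr_surj : Function.Surjective (pr F k) := (con F k).mk'_surjective

lemma pr_eq_iff (f g : PP F k) :
    pr F k f = pr F k g ↔ ∀ x y, Psi F k (x * f * y) = Psi F k (x * g * y) :=
  (con F k).eq

lemma pr_eq_zero_iff (f : PP F k) : pr F k f = 0 ↔ ∀ x y, Psi F k (x * f * y) = 0 := by
  rw [← map_zero (pr F k), pr_eq_iff]
  simp

/-- The functional on the quotient. -/
noncomputable def PsiW : WW F k →ₗ[F] F where
  toFun := Quotient.lift (Psi F k) (fun a b h => by simpa using h 1 1)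
  map_add' := by
    intro a b
    obtain ⟨a, rfl⟩ := pr_surj F k a
    obtain ⟨b, rfl⟩ := pr_surj F k b
    rw [← map_add]
    exact map_add (Psi F k) a b
  map_smul' := by
    intro c a
    obtain ⟨a, rfl⟩ := pr_surj F k a
    rw [← map_smul]
    exact map_smul (Psi F k) c a

lemma PsiW_pr (f : PP F k) : PsiW F k (pr F k f) = Psi F k f := rfl

lemma WW_two (a : WW F k) : a + a = 0 := by
  have h : (2 : F) = 0 := CharTwo.two_eq_zero
  rw [← two_smul F a, h, zero_smul]

/-- commutators are central -/
lemma WW_comm (a b c : WW F k) : (a * b + b * a) * c + c * (a * b + b * a) = 0 := by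
  obtain ⟨a, rfl⟩ := pr_surj F k a
  obtain ⟨b, rfl⟩ := pr_surj F k b
  obtain ⟨c, rfl⟩ := pr_surj F k c
  simp only [← map_mul, ← map_add]
  rw [pr_eq_zero_iff]
  intro x y
  exact Psi_comm F k x a b c y

/-- squares are central -/
lemma WW_sq_comm (a c : WW F k) : a * a * c = c * (a * a) := by
  have h := WW_comm F k a c a
  have h2 := WW_two F k
  -- (ac+ca)a + a(ac+ca) = aca + caa + aac + aca = caa + aac
  have e : (a * c + c * a) * a + a * (a * c + c * a) = (a * a * c + c * (a * a))
      + (a * c * a + a * c * a) := by noncomm_ring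
  rw [e, h2, add_zero] at h
  have h3 := h2 (c * (a * a))
  calc a * a * c = a * a * c + (c * (a * a) + c * (a * a)) := by rw [h3, add_zero]
    _ = (a * a * c + c * (a * a)) + c * (a * a) := by rw [add_assoc]
    _ = _ := by rw [h, zero_add]

/-- Products of fewer than `k` squares are killed. -/
lemma PsiW_prod (p : List (WW F k)) (hl : p.length < k) :
    PsiW F k (p.map fun a => a * a).prod = 0 := by
  choose g hg using pr_surj F k
  have e : (p.map fun a => a * a).prod = pr F k ((p.map fun a => g a * g a).prod) := by
    rw [map_list_prod, List.map_map]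
    congr 1
    apply List.map_congr_left
    intro a _
    simp [hg]
  rw [e, PsiW_pr]
  apply Psi_prod
  · intro a ha
    obtain ⟨b, -, rfl⟩ := List.mem_map.1 ha
    exact sq_mem_Sq F k _
  · simpa using hl

end Pool.Agent.W430.Sp
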