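import Mathlib
import Pool.Agent.W430.Sp.Quot

/-!
# The block triangular algebra
-/

set_option autoImplicit false
set_option linter.unusedSectionVars false

namespace Pool.Agent.W430.Sp

/-! ## The polynomials -/

section Poly

variable {A B : Type*} [NonUnitalNonAssocSemiring A] [NonUnitalNonAssocSemiring B]

/-- The double commutator (in characteristic two) of the first three entries. -/
def gg (a : ℕ → A) : A :=
  (a 0 * a 1 + a 1 * a 0) * a 2 + a 2 * (a 0 * a 1 + a 1 * a 0)

/-- `g x₀² x₁² ⋯` -/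
def wq (a : ℕ → A) : ℕ → A
  | 0 => gg a
  | j + 1 => wq a j * (a (3 + j) * a (3 + j))

/-- `g x₀² x₁² ⋯ g g g` -/
def wp (a : ℕ → A) (j : ℕ) : A := wq a j * gg a * gg a * gg a

lemma map_gg (φ : A → B) (ha : ∀ x y, φ (x + y) = φ x + φ y) (hm : ∀ x y, φ (x * y) = φ x * φ y)
    (a : ℕ → A) : φ (gg a) = gg (fun i => φ (a i)) := by
  simp only [gg, ha, hm]

lemma map_wq (φ : A → B) (ha : ∀ x y, φ (x + y) = φ x + φ y) (hm : ∀ x y, φ (x * y) = φ x * φ y)
    (a : ℕ → A) (j : ℕ) : φ (wq a j) = wq (fun i => φ (a i)) j := by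
  induction j with
  | zero => exact map_gg φ ha hm a
  | succ j ih => simp only [wq, hm, ih]

lemma map_wp (φ : A → B) (ha : ∀ x y, φ (x + y) = φ x + φ y) (hm : ∀ x y, φ (x * y) = φ x * φ y)
    (a : ℕ → A) (j : ℕ) : φ (wp a j) = wp (fun i => φ (a i)) j := by
  simp only [wp, hm, map_wq φ ha hm, map_gg φ ha hm]

end Poly

variable (F : Type) [Field F] [CharP F 2] (k : ℕ)

/-- Matrices of order five over the quotient algebra. -/
abbrev M5 : Type := Matrix (Fin 5) (Fin 5) (WW F k)

/-- The defining property of the block triangular algebra. -/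
structure IsT (A : M5 F k) : Prop where
  tri : ∀ i j, j < i → A i j = 0
  sc : ∃ α : F, A 0 0 = algebraMap F _ α ∧ A 2 2 = algebraMap F _ α ∧ A 4 4 = algebraMap F _ α
  d13 : A 1 1 = A 3 3
  n01 : A 0 1 = A 2 3
  n12 : A 1 2 = A 3 4

lemma IsT.add {A B : M5 F k} (hA : IsT F k A) (hB : IsT F k B) : IsT F k (A + B) := by
  obtain ⟨α, h1, h2, h3⟩ := hA.sc
  obtain ⟨β, h4, h5, h6⟩ := hB.sc
  refine ⟨fun i j h => ?_, ⟨α + β, ?_, ?_, ?_⟩, ?_, ?_, ?_⟩
  · rw [Matrix.add_apply, hA.tri i j h, hB.tri i j h, add_zero]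
  · rw [Matrix.add_apply, h1, h4, map_add]
  · rw [Matrix.add_apply, h2, h5, map_add]
  · rw [Matrix.add_apply, h3, h6, map_add]
  · rw [Matrix.add_apply, Matrix.add_apply, hA.d13, hB.d13]
  · rw [Matrix.add_apply, Matrix.add_apply, hA.n01, hB.n01]
  · rw [Matrix.add_apply, Matrix.add_apply, hA.n12, hB.n12]

lemma tri_mul {R : Type} [Semiring R] {A B : Matrix (Fin 5) (Fin 5) R}
    (hA : ∀ i j, j < i → A i j = 0) (hB : ∀ i j, j < i → B i j = 0) :
    (∀ i j, j < i → (A * B) i j = 0) ∧ (∀ i, (A * B) i i = A i i * B i i) := by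
  constructor
  · intro i j hij
    rw [Matrix.mul_apply]
    apply Finset.sum_eq_zero
    intro l _
    rcases lt_or_ge l i with h | h
    · rw [hA i l h, zero_mul]
    · rw [hB l j (lt_of_lt_of_le hij h), mul_zero]
  · intro i
    rw [Matrix.mul_apply]
    apply Finset.sum_eq_single i
    · intro l _ hl
      rcases lt_or_gt_of_ne hl with h | h
      · rw [hA i l h, zero_mul]
      · rw [hB l i h, mul_zero]
    · simp

lemma tri_mul_succ {R : Type} [Semiring R] {A B : Matrix (Fin 5) (Fin 5) R}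
    (hA : ∀ i j, j < i → A i j = 0) (hB : ∀ i j, j < i → B i j = 0) :
    (A * B) 0 1 = A 0 0 * B 0 1 + A 0 1 * B 1 1 ∧
    (A * B) 1 2 = A 1 1 * B 1 2 + A 1 2 * B 2 2 ∧
    (A * B) 2 3 = A 2 2 * B 2 3 + A 2 3 * B 3 3 ∧
    (A * B) 3 4 = A 3 3 * B 3 4 + A 3 4 * B 4 4 := by
  refine ⟨?_, ?_, ?_, ?_⟩
  · rw [Matrix.mul_apply, Fin.sum_univ_five, hB 2 1 (by decide), hB 3 1 (by decide),
      hB 4 1 (by decide)]
    simp
  · rw [Matrix.mul_apply, Fin.sum_univ_five, hA 1 0 (by decide), hB 3 2 (by decide),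
      hB 4 2 (by decide)]
    simp
  · rw [Matrix.mul_apply, Fin.sum_univ_five, hA 2 0 (by decide), hA 2 1 (by decide),
      hB 4 3 (by decide)]
    simp
  · rw [Matrix.mul_apply, Fin.sum_univ_five, hA 3 0 (by decide), hA 3 1 (by decide),
      hA 3 2 (by decide)]
    simp

lemma IsT.mul {A B : M5 F k} (hA : IsT F k A) (hB : IsT F k B) : IsT F k (A * B) := by
  obtain ⟨α, h1, h2, h3⟩ := hA.sc
  obtain ⟨β, h4, h5, h6⟩ := hB.sc
  obtain ⟨t1, t2⟩ := tri_mul hA.tri hB.tri
  obtain ⟨s1, s2, s3, s4⟩ := tri_mul_succ hA.tri hB.tri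
  refine ⟨t1, ⟨α * β, ?_, ?_, ?_⟩, ?_, ?_, ?_⟩
  · rw [t2, h1, h4, map_mul]
  · rw [t2, h2, h5, map_mul]
  · rw [t2, h3, h6, map_mul]
  · rw [t2, t2, hA.d13, hB.d13]
  · rw [s1, s3, h1, h2, hA.n01, hB.n01, hB.d13]
  · rw [s2, s4, h5, h6, hA.n12, hB.n12, hA.d13]

/-- The block triangular algebra. -/
noncomputable def TT : Subalgebra F (M5 F k) where
  carrier := {A | IsT F k A}
  mul_mem' := fun ha hb => IsT.mul F k ha hb
  add_mem' := fun ha hb => IsT.add F k ha hb
  algebraMap_mem' := by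
    intro r
    refine ⟨?_, ⟨r, ?_, ?_, ?_⟩, ?_, ?_, ?_⟩
    · intro i j hij
      rw [Matrix.algebraMap_matrix_apply, if_neg (ne_of_gt hij)]
    all_goals simp [Matrix.algebraMap_matrix_apply]

/-- The value of the functional at the corner. -/
noncomputable def corner : TT F k →ₗ[F] F :=
  PsiW F k ∘ₗ (Matrix.entryLinearMap F (WW F k) 0 4) ∘ₗ (TT F k).val.toLinearMap

lemma corner_apply (A : TT F k) : corner F k A = PsiW F k (A.1 0 4) := rfl

/-- The polynomial identities modulo the kernel of the functional. -/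
def Sat (f : FreeAlgebra F ℕ) : Prop :=
  ∀ (a : ℕ → TT F k) (x y : TT F k), corner F k (x * FreeAlgebra.lift F a f * y) = 0

/-- product of four strictly upper triangular matrices -/
lemma prod_four {R : Type} [Semiring R] {A B C D : Matrix (Fin 5) (Fin 5) R}
    (hA : ∀ i j, j ≤ i → A i j = 0) (hB : ∀ i j, j ≤ i → B i j = 0)
    (hC : ∀ i j, j ≤ i → C i j = 0) (hD : ∀ i j, j ≤ i → D i j = 0) (i j : Fin 5) :
    (A * B * C * D) i j = if i = 0 ∧ j = 4 then A 0 1 * B 1 2 * C 2 3 * D 3 4 else 0 := by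
  have key : ∀ {n m : ℕ} {P Q : Matrix (Fin 5) (Fin 5) R},
      (∀ i j : Fin 5, (j : ℕ) < i + n → P i j = 0) → (∀ i j : Fin 5, (j : ℕ) < i + m → Q i j = 0) →
      (∀ i j : Fin 5, (j : ℕ) < i + (n + m) → (P * Q) i j = 0) := by
    intro n m P Q hP hQ i j hij
    rw [Matrix.mul_apply]
    apply Finset.sum_eq_zero
    intro l _
    rcases lt_or_ge (l : ℕ) (i + n) with h | h
    · rw [hP i l h, zero_mul]
    · rw [hQ l j (by omega), mul_zero]
  have conv : ∀ {P : Matrix (Fin 5) (Fin 5) R}, (∀ i j, j ≤ i → P i j = 0) →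
      (∀ i j : Fin 5, (j : ℕ) < i + 1 → P i j = 0) := by
    intro P hP i j hij
    exact hP i j (by rw [Fin.le_def]; omega)
  have hA' := conv hA
  have hB' := conv hB
  have hC' := conv hC
  have hD' := conv hD
  have hAB := key hA' hB'
  have hABC := key hAB hC'
  have hABCD := key hABC hD'
  split_ifs with h
  · obtain ⟨rfl, rfl⟩ := h
    rw [Matrix.mul_apply, Fin.sum_univ_five, hABC 0 0 (by decide), hABC 0 1 (by decide),
      hABC 0 2 (by decide), hD 4 4 le_rfl]
    simp only [zero_mul, zero_add, mul_zero, add_zero]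
    rw [Matrix.mul_apply, Fin.sum_univ_five, hAB 0 0 (by decide), hAB 0 1 (by decide),
      hC 3 3 le_rfl, hC 4 3 (by decide)]
    simp only [zero_mul, zero_add, mul_zero, add_zero]
    rw [Matrix.mul_apply, Fin.sum_univ_five, hA 0 0 le_rfl, hB 2 2 le_rfl, hB 3 2 (by decide),
      hB 4 2 (by decide)]
    simp only [zero_mul, zero_add, mul_zero, add_zero]
  · apply hABCD
    by_contra hc
    apply h
    constructor
    · apply Fin.ext
      have := j.2
      simp only [Fin.val_zero]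
      omega
    · apply Fin.ext
      have := j.2
      show (j : ℕ) = 4
      omega

lemma gg_strict (a : ℕ → TT F k) (i j : Fin 5) (hij : j ≤ i) : (gg a).1 i j = 0 := by
  rcases lt_or_eq_of_le hij with h | rfl
  · exact (gg a).2.tri i j h
  · -- diagonal entries
    have hd : ∀ (x y : TT F k) (l : Fin 5), (x * y).1 l l = x.1 l l * y.1 l l := by
      intro x y l
      exact (tri_mul x.2.tri y.2.tri).2 l
    have ha : ∀ (x y : TT F k) (l : Fin 5), (x + y).1 l l = x.1 l l + y.1 l l := by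
      intro x y l; rfl
    rw [gg]
    simp only [hd, ha]
    exact WW_comm F k _ _ _

lemma wq_strict (a : ℕ → TT F k) (n : ℕ) :
    (∀ i j : Fin 5, j ≤ i → (wq a n).1 i j = 0) ∧
    (wq a n).1 0 1 = (gg a).1 0 1 *
      ((List.range n).map fun i => (a (3 + i)).1 1 1 * (a (3 + i)).1 1 1).prod := by
  induction n with
  | zero => exact ⟨gg_strict F k a, by simp [wq]⟩
  | succ n ih =>
    obtain ⟨h1, h2⟩ := ih
    have hd := tri_mul (A := (wq a n).1) (B := (a (3 + n) * a (3 + n)).1)
      (wq a n).2.tri (a (3 + n) * a (3 + n)).2.tri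
    have hs := tri_mul_succ (A := (wq a n).1) (B := (a (3 + n) * a (3 + n)).1)
      (wq a n).2.tri (a (3 + n) * a (3 + n)).2.tri
    have hd2 := tri_mul (A := (a (3 + n)).1) (B := (a (3 + n)).1)
      (a (3 + n)).2.tri (a (3 + n)).2.tri
    refine ⟨?_, ?_⟩
    · intro i j hij
      rcases lt_or_eq_of_le hij with h | rfl
      · exact hd.1 i j h
      · show ((wq a n).1 * (a (3 + n) * a (3 + n)).1) j j = 0
        rw [hd.2, h1 j j le_rfl, zero_mul]
    · show ((wq a n).1 * (a (3 + n) * a (3 + n)).1) 0 1 = _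
      rw [hs.1, h1 0 0 le_rfl, zero_mul, zero_add, h2]
      have : (a (3 + n) * a (3 + n)).1 1 1 = (a (3 + n)).1 1 1 * (a (3 + n)).1 1 1 := hd2.2 1
      rw [this, List.range_succ, List.map_append, List.prod_append, mul_assoc]
      simp

lemma wp_entry (a : ℕ → TT F k) (n : ℕ) (i j : Fin 5) :
    (wp a n).1 i j = if i = 0 ∧ j = 4 then
      (gg a).1 0 1 * ((List.range n).map fun i => (a (3 + i)).1 1 1 * (a (3 + i)).1 1 1).prod
        * (gg a).1 1 2 * (gg a).1 0 1 * (gg a).1 1 2 else 0 := by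
  have h := wq_strict F k a n
  have hg := gg_strict F k a
  have := prod_four h.1 hg hg hg i j
  rw [h.2, ← (gg a).2.n01, ← (gg a).2.n12] at this
  exact this

lemma prod_sq_comm (b : ℕ → WW F k) (l : List ℕ) (c : WW F k) :
    (l.map fun i => b i * b i).prod * c = c * (l.map fun i => b i * b i).prod := by
  induction l with
  | nil => simp
  | cons i l ih =>
    rw [List.map_cons, List.prod_cons, mul_assoc, ih, ← mul_assoc, WW_sq_comm, mul_assoc]

lemma PsiW_smul' (α β : F) (m : WW F k) :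
    PsiW F k (algebraMap F _ α * m * algebraMap F _ β) = α * β * PsiW F k m := by
  rw [← Algebra.smul_def, ← Algebra.commutes, ← Algebra.smul_def, smul_smul, map_smul, smul_eq_mul,
    mul_comm β α]

/-- The corner value of a matrix concentrated at the corner. -/
lemma corner_sandwich (x y A : TT F k) (m : WW F k)
    (hA : ∀ i j, A.1 i j = if i = 0 ∧ j = 4 then m else 0) :
    ∃ α β : F, x.1 0 0 = algebraMap F _ α ∧ y.1 4 4 = algebraMap F _ β ∧
      corner F k (x * A * y) = α * β * PsiW F k m := by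
  obtain ⟨α, h1, -, -⟩ := x.2.sc
  obtain ⟨β, -, -, h2⟩ := y.2.sc
  refine ⟨α, β, h1, h2, ?_⟩
  rw [corner_apply]
  have e : (x * A * y).1 0 4 = x.1 0 0 * m * y.1 4 4 := by
    show ((x.1 * A.1) * y.1) 0 4 = _
    have h0 : ∀ j, (x.1 * A.1) 0 j = if j = 4 then x.1 0 0 * m else 0 := by
      intro j
      rw [Matrix.mul_apply, Finset.sum_eq_single 0]
      · rw [hA]
        by_cases hj : j = 4 <;> simp [hj]
      · intro l _ hl
        rw [hA, if_neg (fun h => hl h.1), mul_zero]
      · simp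
    rw [Matrix.mul_apply, Finset.sum_eq_single 4]
    · rw [h0, if_pos rfl]
    · intro l _ hl
      rw [h0, if_neg hl, zero_mul]
    · simp
  rw [e, h1, h2, PsiW_smul']

/-- The polynomials `w_n` with `n + 1 < k` are satisfied. -/
lemma sat_wp (n : ℕ) (hn : n + 1 < k) : Sat F k (wp (FreeAlgebra.ι F) n) := by
  intro a x y
  have e : FreeAlgebra.lift F a (wp (FreeAlgebra.ι F) n) = wp a n := by
    rw [map_wp (FreeAlgebra.lift F a) (map_add _) (map_mul _)]
    simp only [FreeAlgebra.lift_ι_apply]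
  rw [e]
  obtain ⟨α, β, -, -, h⟩ := corner_sandwich F k x y (wp a n) _ (wp_entry F k a n)
  rw [h]
  set b : ℕ → WW F k := fun i => (a (3 + i)).1 1 1 with hb
  set u := (gg a).1 0 1
  set v := (gg a).1 1 2
  have e2 : u * ((List.range n).map fun i => b i * b i).prod * v * u * v
      = (((List.range n).map b ++ [u * v]).map fun c => c * c).prod := by
    rw [← prod_sq_comm, List.map_append, List.prod_append, List.map_map]
    simp only [List.map_cons, List.map_nil, List.prod_cons, List.prod_nil, mul_one, mul_assoc]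
    rfl
  have e3 : PsiW F k (u * ((List.range n).map fun i => b i * b i).prod * v * u * v) = 0 := by
    rw [e2]
    apply PsiW_prod
    simpa using hn
  have e4 : (List.map (fun i => (a (3 + i)).1 1 1 * (a (3 + i)).1 1 1) (List.range n))
    = (List.range n).map fun i => b i * b i := rfl
  rw [e4, e3, mul_zero]

end Pool.Agent.W430.Sp
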