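import Mathlib
import Pool.Agent.W430.Sp.Tri

/-!
# The polynomial `w_k` is not satisfied
-/

set_option autoImplicit false
set_option linter.unusedSectionVars false

namespace Pool.Agent.W430.Sp

open MvPolynomial

variable (F : Type) [Field F] [CharP F 2] (k : ℕ)

lemma monomial_ones :
    ∏ i : Fin k, (X (Sum.inl i) * X (Sum.inr i) : MvPolynomial (Fin k ⊕ Fin k) F)
      = monomial (ones k) 1 := by
  rw [Finset.prod_mul_distrib, ← Fintype.prod_sum_type
    (fun s : Fin k ⊕ Fin k => (X s : MvPolynomial (Fin k ⊕ Fin k) F)), monomial_eq, map_one,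
    one_mul, Finsupp.prod_fintype _ _ (by simp)]
  apply Finset.prod_congr rfl
  intro s _
  simp [ones]

lemma deg_prod (t : Finset (Fin k)) :
    (∏ i ∈ t, (X (Sum.inl i) * X (Sum.inr i) : MvPolynomial (Fin k ⊕ Fin k) F)).totalDegree
      ≤ 2 * t.card := by
  refine (totalDegree_finsetProd _ _).trans ?_
  calc ∑ i ∈ t, (X (Sum.inl i) * X (Sum.inr i) : MvPolynomial (Fin k ⊕ Fin k) F).totalDegree
      ≤ ∑ _i ∈ t, 2 := by
        apply Finset.sum_le_sum
        intro i _
        refine (totalDegree_mul _ _).trans ?_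
        rw [totalDegree_X, totalDegree_X]
    _ = 2 * t.card := by simp [mul_comm]

lemma top_prod : top F k (∏ i : Fin k, (1 + ep F k i * uu F k i)) = 1 := by
  have e : (∏ i : Fin k, (1 + ep F k i * uu F k i)) = Ideal.Quotient.mk (sqIdeal F k)
      (∏ i : Fin k, (1 + X (Sum.inl i) * X (Sum.inr i))) := by
    rw [map_prod]
    apply Finset.prod_congr rfl
    intro i _
    rw [map_add, map_one, map_mul]; rfl
  rw [e, top_mk, Finset.prod_one_add, coeff_sum, Finset.sum_eq_single Finset.univ]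
  · rw [monomial_ones, coeff_monomial, if_pos rfl]
  · intro t _ ht
    rw [← top_mk]
    apply top_eq_zero_of_degree
    refine lt_of_le_of_lt (deg_prod F k t) ?_
    have : t.card < k := by
      have h2 : ∃ x, x ∉ t := by
        by_contra hc
        push Not at hc
        exact ht (Finset.eq_univ_iff_forall.2 hc)
      obtain ⟨x, hx⟩ := h2
      simpa using Finset.card_lt_univ_of_notMem hx
    omega
  · simp

/-- The list of blocks of the squares of the letters. -/
def sqs (l : List (Fin k)) : List (Blk k) := l.map fun i => Blk.sq [i]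

lemma cont_sqs (l : List (Fin k)) (j : Fin k) : cont k (tw k (sqs k l)) j = 2 * l.count j := by
  induction l with
  | nil => simp [sqs, tw]
  | cons i l ih =>
    have e2 : tw k (sqs k (i :: l)) = [i, i] ++ tw k (sqs k l) := by simp [tw, sqs, Blk.word]
    rw [e2, cont_append, Finsupp.add_apply, ih, List.count_cons]
    by_cases h : i = j
    · simp [h]; ring
    · simp [h]

lemma cc_sqs (l : List (Fin k)) :
    UU F k (tw k (sqs k l)) = 0 ∧
    cc F k (tw k (sqs k l)) = (l.map fun i => 1 + ep F k i * uu F k i).prod := by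
  induction l with
  | nil => simp [sqs, tw]
  | cons i l ih =>
    obtain ⟨h1, h2⟩ := ih
    have e2 : tw k (sqs k (i :: l)) = [i, i] ++ tw k (sqs k l) := by simp [tw, sqs, Blk.word]
    have e3 : UU F k [i, i] = 0 := by
      simp only [UU_cons, UU_nil]
      linear_combination (uu F k i) * two_zero F k
    constructor
    · rw [e2, UU_append, e3, h1, add_zero]
    · rw [e2, cc_append, e3, h2, zero_mul, add_zero, mul_one, List.map_cons, List.prod_cons]
      congr 1
      simp only [cc, EE_cons, EE_nil]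
      ring

lemma tf_sqs (l : List (Fin k)) : tf F k (sqs k l) = 1 := by
  rw [tf]
  apply List.prod_eq_one
  intro z hz
  obtain ⟨b, hb, rfl⟩ := List.mem_map.1 hz
  obtain ⟨i, -, rfl⟩ := List.mem_map.1 hb
  rfl

lemma Psi_sqs : Psi F k (te F k (sqs k (List.finRange k))) = 1 := by
  rw [Psi_of_HH F k (rho_te F k _), if_pos, tf_sqs, mul_one, (cc_sqs F k _).2,
    ← Fin.prod_univ_def, top_prod]
  ext j
  rw [cont_sqs, List.count_eq_one_of_mem (List.nodup_finRange k) (List.mem_finRange j)]
  rfl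

/-- The superdiagonal matrix. -/
noncomputable def Z0 : M5 F k := Matrix.of fun i j => if (i : ℕ) + 1 = j then 1 else 0

/-- The diagonal idempotent. -/
noncomputable def D0 : M5 F k := Matrix.diagonal ![1, 0, 1, 0, 1]

/-- The diagonal matrix. -/
noncomputable def X0 (c : WW F k) : M5 F k := Matrix.diagonal ![0, c, 0, c, 0]

lemma isT_Z0 : IsT F k (Z0 F k) := by
  refine ⟨?_, ⟨0, ?_, ?_, ?_⟩, ?_, ?_, ?_⟩
  · intro i j hij
    rw [Z0, Matrix.of_apply, if_neg]
    have : (j : ℕ) < i := hij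
    omega
  all_goals simp [Z0]

lemma isT_D0 : IsT F k (D0 F k) := by
  refine ⟨?_, ⟨1, ?_, ?_, ?_⟩, ?_, ?_, ?_⟩
  · intro i j hij
    rw [D0, Matrix.diagonal_apply_ne _ (ne_of_gt hij)]
  all_goals simp [D0]

lemma isT_X0 (c : WW F k) : IsT F k (X0 F k c) := by
  refine ⟨?_, ⟨0, ?_, ?_, ?_⟩, ?_, ?_, ?_⟩
  · intro i j hij
    rw [X0, Matrix.diagonal_apply_ne _ (ne_of_gt hij)]
  all_goals simp [X0]

lemma Z0_D0 : Z0 F k * D0 F k + D0 F k * Z0 F k = Z0 F k := by
  ext i j
  rw [Matrix.add_apply, D0, Matrix.mul_diagonal, Matrix.diagonal_mul]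
  fin_cases i <;> fin_cases j <;> simp [Z0]

/-- The evaluation. -/
noncomputable def av : ℕ → TT F k
  | 0 => ⟨Z0 F k, isT_Z0 F k⟩
  | 1 => ⟨D0 F k, isT_D0 F k⟩
  | 2 => ⟨D0 F k, isT_D0 F k⟩
  | n + 3 => ⟨X0 F k (if h : n < k then pr F k (wd F k [⟨n, h⟩]) else 0), isT_X0 F k _⟩

lemma gg_av : (gg (av F k)).1 = Z0 F k := by
  show (Z0 F k * D0 F k + D0 F k * Z0 F k) * D0 F k + D0 F k * (Z0 F k * D0 F k + D0 F k * Z0 F k)
    = _
  rw [Z0_D0, Z0_D0]

lemma not_sat_wp : ¬ Sat F k (wp (FreeAlgebra.ι F) k) := by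
  intro h
  have h1 := h (av F k) 1 1
  have e : FreeAlgebra.lift F (av F k) (wp (FreeAlgebra.ι F) k) = wp (av F k) k := by
    rw [map_wp (FreeAlgebra.lift F (av F k)) (map_add _) (map_mul _)]
    simp only [FreeAlgebra.lift_ι_apply]
  rw [e, one_mul, mul_one, corner_apply, wp_entry, if_pos ⟨rfl, rfl⟩, gg_av] at h1
  have e1 : Z0 F k 0 1 = 1 := by simp [Z0]
  have e2 : Z0 F k 1 2 = 1 := by simp [Z0]
  rw [e1, e2, one_mul, mul_one, mul_one, mul_one] at h1
  have e3 : ((List.range k).map fun i => (av F k (3 + i)).1 1 1 * (av F k (3 + i)).1 1 1).prod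
      = pr F k (te F k (sqs k (List.finRange k))) := by
    rw [← List.map_coe_finRange_eq_range, List.map_map, te, map_list_prod, sqs, List.map_map,
      List.map_map]
    congr 1
    apply List.map_congr_left
    intro i _
    have e4 : (av F k (3 + (i : ℕ))).1 1 1 = pr F k (wd F k [i]) := by
      rw [add_comm]
      show X0 F k (if h : (i : ℕ) < k then pr F k (wd F k [⟨i, h⟩]) else 0) 1 1 = _
      simp [X0]
    simp only [Function.comp_apply, e4, Blk.el, map_mul]
  rw [e3, PsiW_pr, Psi_sqs] at h1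
  exact one_ne_zero h1

end Pool.Agent.W430.Sp
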