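import Mathlib
import Pool.Agent.W430.Sp.NotSat

/-!
# The identities of matrices of order ten are satisfied
-/

set_option autoImplicit false
set_option linter.unusedSectionVars false

namespace Pool.Agent.W430.Sp

variable (F : Type) [Field F] [CharP F 2] (k : ℕ)

lemma lift_comp' {A B : Type} [Ring A] [Algebra F A] [Ring B] [Algebra F B] (φ : A →ₐ[F] B)
    (a : ℕ → A) (f : FreeAlgebra F ℕ) :
    φ (FreeAlgebra.lift F a f) = FreeAlgebra.lift F (fun i => φ (a i)) f := by
  have : φ.comp (FreeAlgebra.lift F a) = FreeAlgebra.lift F (fun i => φ (a i)) := by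
    ext i
    simp
  rw [← this]; rfl

/-- Identities of matrices of order ten, evaluated at block matrices. -/
lemma blk_zero (f : FreeAlgebra F ℕ)
    (hf : ∀ a : ℕ → Matrix (Fin 10) (Fin 10) F, FreeAlgebra.lift F a f = 0)
    (b : ℕ → Matrix (Fin 5) (Fin 5) (Matrix (Fin 2) (Fin 2) F)) :
    FreeAlgebra.lift F b f = 0 := by
  let e1 : Matrix (Fin 5) (Fin 5) (Matrix (Fin 2) (Fin 2) F) ≃ₐ[F]
      Matrix (Fin 5 × Fin 2) (Fin 5 × Fin 2) F := Matrix.compAlgEquiv (Fin 5) (Fin 2) F F
  let e2 : Matrix (Fin 5 × Fin 2) (Fin 5 × Fin 2) F ≃ₐ[F] Matrix (Fin 10) (Fin 10) F :=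
    Matrix.reindexAlgEquiv F F finProdFinEquiv
  apply (e1.trans e2).injective
  rw [map_zero]
  have := lift_comp' F ((e1.trans e2 : _ ≃ₐ[F] _) : _ →ₐ[F] Matrix (Fin 10) (Fin 10) F) b f
  rw [hf] at this
  exact this

lemma sat_of_matrix [Infinite F] (f : FreeAlgebra F ℕ)
    (hf : ∀ a : ℕ → Matrix (Fin 10) (Fin 10) F, FreeAlgebra.lift F a f = 0) : Sat F k f := by
  intro a x y
  have hA : FreeAlgebra.lift F a f = 0 := by
    apply Subtype.ext
    have h1 := lift_comp' F (TT F k).val a f
    choose g hg using pr_surj F k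
    let at' : ℕ → Matrix (Fin 5) (Fin 5) (PP F k) := fun i => ((a i).1).map g
    have h2 : (fun i => (TT F k).val (a i)) = fun i => (pr F k).mapMatrix (at' i) := by
      funext i
      ext p q
      simp [at', hg]
    rw [h2, ← lift_comp' F ((pr F k).mapMatrix) at' f] at h1
    show (TT F k).val (FreeAlgebra.lift F a f) = 0
    rw [h1]
    ext p q
    show pr F k ((FreeAlgebra.lift F at' f) p q) = 0
    rw [pr_eq_zero_iff]
    intro x y
    apply Psi_eq_zero
    intro σ
    have h3 : σ ((FreeAlgebra.lift F at' f) p q) = 0 := by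
      have h4 := lift_comp' F (σ.mapMatrix) at' f
      rw [blk_zero F f hf] at h4
      have := congrFun (congrFun h4 p) q
      exact this
    rw [map_mul, map_mul, h3, mul_zero, zero_mul]
  rw [hA, mul_zero, zero_mul, map_zero]

end Pool.Agent.W430.Sp
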