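import Mathlib
import Pool.Agent.W430.Sp.MatId

/-!
# Chains of closed sets and the polynomials `w_n`
-/

set_option autoImplicit false
set_option linter.unusedSectionVars false

namespace Pool.Agent.W430.Sp

/-- A closure system in which unions of chains are closed, and an infinite sequence of elements
which are separated by closed sets: the closure of the sequence is not finitely generated. -/
theorem not_fg {P : Type*} (𝒞 : Set P → Prop)
    (hInter : ∀ 𝒰 : Set (Set P), (∀ U ∈ 𝒰, 𝒞 U) → 𝒞 (⋂₀ 𝒰))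
    (hUnion : ∀ U : ℕ → Set P, Monotone U → (∀ K, 𝒞 (U K)) → 𝒞 (⋃ K, U K))
    (T0 : Set P) (w : ℕ → P)
    (hB : ∀ K, ∃ B, 𝒞 B ∧ T0 ⊆ B ∧ (∀ j ≤ K, w j ∈ B) ∧ ∃ m, w m ∉ B) :
    ∀ Φ : Finset P, {f | ∀ U, 𝒞 U → (Φ : Set P) ⊆ U → f ∈ U} ≠
      {f | ∀ U, 𝒞 U → T0 ∪ Set.range w ⊆ U → f ∈ U} := by
  intro Φ hΦ
  set S : ℕ → Set P := fun K => T0 ∪ {x | ∃ j ≤ K, w j = x} with hS
  set V : ℕ → Set P := fun K => {f | ∀ U, 𝒞 U → S K ⊆ U → f ∈ U} with hV
  have hSV : ∀ K, S K ⊆ V K := fun K f hf U _ hU => hU hf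
  have hSmono : Monotone S := by
    intro K L hKL x hx
    rcases hx with hx | ⟨j, hj, rfl⟩
    · exact Or.inl hx
    · exact Or.inr ⟨j, hj.trans hKL, rfl⟩
  have hVmono : Monotone V := by
    intro K L hKL f hf U hU hSU
    exact hf U hU ((hSmono hKL).trans hSU)
  have hVC : ∀ K, 𝒞 (V K) := by
    intro K
    have : V K = ⋂₀ {U | 𝒞 U ∧ S K ⊆ U} := by
      ext f
      simp only [hV, Set.mem_ofPred_eq, Set.mem_sInter]
      exact ⟨fun h U hU => h U hU.1 hU.2, fun h U h1 h2 => h U ⟨h1, h2⟩⟩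
    rw [this]
    exact hInter _ (fun U hU => hU.1)
  have hUC := hUnion V hVmono hVC
  have hsub : T0 ∪ Set.range w ⊆ ⋃ K, V K := by
    rintro x (hx | ⟨j, rfl⟩)
    · exact Set.mem_iUnion.2 ⟨0, hSV 0 (Or.inl hx)⟩
    · exact Set.mem_iUnion.2 ⟨j, hSV j (Or.inr ⟨j, le_rfl, rfl⟩)⟩
  have hΦV : ∀ g ∈ Φ, ∃ K, g ∈ V K := by
    intro g hg
    have h1 : g ∈ {f | ∀ U, 𝒞 U → (Φ : Set P) ⊆ U → f ∈ U} := fun U _ hU => hU hg
    rw [hΦ] at h1
    exact Set.mem_iUnion.1 (h1 _ hUC hsub)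
  obtain ⟨K, hK⟩ : ∃ K, ∀ g ∈ Φ, g ∈ V K := by
    choose! f hf using hΦV
    exact ⟨Φ.sup f, fun g hg => hVmono (Finset.le_sup hg) (hf g hg)⟩
  obtain ⟨B, hB1, hB2, hB3, m, hm⟩ := hB K
  apply hm
  have h2 : w m ∈ {f | ∀ U, 𝒞 U → T0 ∪ Set.range w ⊆ U → f ∈ U} :=
    fun U _ hU => hU (Or.inr ⟨m, rfl⟩)
  rw [← hΦ] at h2
  refine h2 B hB1 ?_
  intro g hg
  refine hK g hg B hB1 ?_
  rintro x (hx | ⟨j, hj, rfl⟩)
  · exact hB2 hx
  · exact hB3 j hj

variable (F : Type) [Field F] [CharP F 2] (k : ℕ)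

lemma sat_zero : Sat F k 0 := by
  intro a x y
  simp

lemma sat_add {f g : FreeAlgebra F ℕ} (hf : Sat F k f) (hg : Sat F k g) : Sat F k (f + g) := by
  intro a x y
  rw [map_add, mul_add, add_mul, map_add, hf, hg, add_zero]

lemma sat_smul {f : FreeAlgebra F ℕ} (c : F) (hf : Sat F k f) : Sat F k (c • f) := by
  intro a x y
  rw [map_smul, mul_smul_comm, smul_mul_assoc, map_smul, hf, smul_zero]

lemma sat_mul_right {f : FreeAlgebra F ℕ} (g : FreeAlgebra F ℕ) (hf : Sat F k f) :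
    Sat F k (f * g) := by
  intro a x y
  rw [map_mul (FreeAlgebra.lift F a) f g]
  have := hf a x (FreeAlgebra.lift F a g * y)
  simpa only [mul_assoc] using this

lemma sat_mul_left {f : FreeAlgebra F ℕ} (g : FreeAlgebra F ℕ) (hf : Sat F k f) :
    Sat F k (g * f) := by
  intro a x y
  rw [map_mul (FreeAlgebra.lift F a) g f]
  have := hf a (x * FreeAlgebra.lift F a g) y
  simpa only [mul_assoc] using this

lemma sat_endo {f : FreeAlgebra F ℕ} (ψ : FreeAlgebra F ℕ →ₐ[F] FreeAlgebra F ℕ)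
    (hf : Sat F k f) : Sat F k (ψ f) := by
  intro a x y
  have e : FreeAlgebra.lift F a (ψ f)
      = FreeAlgebra.lift F (fun i => FreeAlgebra.lift F a (ψ (FreeAlgebra.ι F i))) f := by
    have : (FreeAlgebra.lift F a).comp ψ
        = FreeAlgebra.lift F (fun i => FreeAlgebra.lift F a (ψ (FreeAlgebra.ι F i))) := by
      ext i
      simp
    rw [← this]; rfl
  rw [e]
  exact hf _ x y

/-- The block diagonal embedding. -/
noncomputable def blockDiag (m : ℕ) :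
    (Matrix (Fin 10) (Fin 10) F × Matrix (Fin m) (Fin m) F) →ₐ[F]
      Matrix (Fin 10 ⊕ Fin m) (Fin 10 ⊕ Fin m) F where
  toFun A := Matrix.fromBlocks A.1 0 0 A.2
  map_one' := Matrix.fromBlocks_one
  map_mul' A B := by simp [Matrix.fromBlocks_multiply]
  map_zero' := Matrix.fromBlocks_zero
  map_add' A B := by simp [Matrix.fromBlocks_add]
  commutes' c := by
    ext i j
    rcases i with i | i <;> rcases j with j | j <;>
      simp [Matrix.algebraMap_matrix_apply]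

/-- Identities of large matrices are identities of matrices of order ten. -/
lemma identity_ten (n : ℕ) (hn : 10 ≤ n) (f : FreeAlgebra F ℕ)
    (hf : ∀ b : ℕ → Matrix (Fin n) (Fin n) F, FreeAlgebra.lift F b f = 0)
    (a : ℕ → Matrix (Fin 10) (Fin 10) F) : FreeAlgebra.lift F a f = 0 := by
  obtain ⟨m, rfl⟩ := Nat.exists_eq_add_of_le hn
  let e : Matrix (Fin 10 ⊕ Fin m) (Fin 10 ⊕ Fin m) F ≃ₐ[F] Matrix (Fin (10 + m)) (Fin (10 + m)) F :=
    Matrix.reindexAlgEquiv F F finSumFinEquiv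
  let φ : (Matrix (Fin 10) (Fin 10) F × Matrix (Fin m) (Fin m) F) →ₐ[F]
      Matrix (Fin (10 + m)) (Fin (10 + m)) F := (e : _ →ₐ[F] _).comp (blockDiag F m)
  have hφ : Function.Injective φ := by
    intro A B h
    have h1 : blockDiag F m A = blockDiag F m B := e.injective h
    have h2 : Matrix.fromBlocks A.1 0 0 A.2 = Matrix.fromBlocks B.1 0 0 B.2 := h1
    rw [Matrix.fromBlocks_inj] at h2
    exact Prod.ext h2.1 h2.2.2.2
  have h1 := lift_comp' F φ (fun i => (a i, 0)) f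
  rw [hf] at h1
  have h2 : FreeAlgebra.lift F
      (fun i => ((a i, 0) : Matrix (Fin 10) (Fin 10) F × Matrix (Fin m) (Fin m) F)) f = 0 :=
    hφ (by rw [h1, map_zero])
  have h3 := lift_comp' F (AlgHom.fst F (Matrix (Fin 10) (Fin 10) F) (Matrix (Fin m) (Fin m) F))
    (fun i => (a i, 0)) f
  rw [h2, map_zero] at h3
  exact h3.symm

lemma sat_of_matrix' [Infinite F] (n : ℕ) (hn : 10 ≤ n) (f : FreeAlgebra F ℕ)
    (hf : ∀ a : ℕ → Matrix (Fin n) (Fin n) F, FreeAlgebra.lift F a f = 0) : Sat F k f :=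
  sat_of_matrix F k f (identity_ten F n hn f hf)

end Pool.Agent.W430.Sp
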